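import Mathlib

/-!
Inequalities for the supporting planes of a body with a half-turn symmetry.
-/

set_option autoImplicit false

namespace Pool.Agent.Helper66.HT

theorem s1 {X Y z a c h : ℝ} (hX : 0 ≤ X) (hY0 : 0 ≤ Y) (hY : Y ≤ 1)
    (h1 : z + a * (0 - X) + c * (1 - Y) ≤ 0) (h2 : z + a * (0 - X) + c * (-1 - Y) ≤ 0)
    (ha : a ≤ h) : z ≤ h * X := by
  have e1 := mul_le_mul_of_nonneg_left h1 (show 0 ≤ 1 + Y by linarith)
  have e2 := mul_le_mul_of_nonneg_left h2 (show 0 ≤ 1 - Y by linarith)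
  have e3 := mul_le_mul_of_nonneg_right ha hX
  nlinarith

theorem s2 {X Y z n β h : ℝ} (hX0 : 0 ≤ X) (hY0 : 0 ≤ Y) (hX : X ≤ 1)
    (h1 : 1 ≤ z + n * (1 - X) - β * (0 - Y)) (h2 : 1 ≤ z + n * (-1 - X) - β * (0 - Y))
    (hb : β ≤ h) : 1 - z ≤ h * Y := by
  have e1 := mul_le_mul_of_nonneg_left h1 (show 0 ≤ 1 + X by linarith)
  have e2 := mul_le_mul_of_nonneg_left h2 (show 0 ≤ 1 - X by linarith)
  have e3 := mul_le_mul_of_nonneg_right hb hY0
  nlinarith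

theorem s3 {X Y z α m h : ℝ} (hY0 : 0 ≤ Y) (hY : Y ≤ 1) (hXY : Y ≤ 1 + X)
    (h1 : 1 ≤ z + α * (-1 - X) + m * (0 - Y)) (h2 : 0 ≤ z + α * (0 - X) + m * (1 - Y))
    (ha : h ≤ α) : h * (1 + X - Y) ≤ z + Y - 1 := by
  have e1 := mul_le_mul_of_nonneg_left h1 (show 0 ≤ 1 - Y by linarith)
  have e2 := mul_le_mul_of_nonneg_left h2 hY0
  have e3 := mul_le_mul_of_nonneg_right ha (show 0 ≤ 1 + X - Y by linarith)
  nlinarith

theorem s4 {X Y z a c h : ℝ} (hX0 : 0 ≤ X) (hX : X ≤ 1) (hXY : X ≤ 1 + Y)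
    (h1 : z + a * (0 - X) + c * (-1 - Y) ≤ 0) (h2 : z + a * (1 - X) + c * (0 - Y) ≤ 1)
    (ha : c ≤ -h) : h * (1 + Y - X) ≤ X - z := by
  have e1 := mul_le_mul_of_nonneg_left h1 (show 0 ≤ 1 - X by linarith)
  have e2 := mul_le_mul_of_nonneg_left h2 hX0
  have e3 := mul_le_mul_of_nonneg_right ha (show 0 ≤ 1 + Y - X by linarith)
  nlinarith

/-- first half of `p1`, and `p3` -/
theorem p3aux {X Y z X' Y' z' α m : ℝ} (hY : 0 < Y) (hYY : Y ≤ Y')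
    (h1 : 1 ≤ z + α * (-1 - X) + m * (0 - Y)) (h2 : z' ≤ z + α * (-X' - X) + m * (Y' - Y)) :
    α * (Y * (X + X') + (Y' - Y) * (1 + X)) + (1 - z) * (Y' - Y) ≤ Y * (z - z') := by
  have e1 := mul_le_mul_of_nonneg_left h1 (show 0 ≤ Y' - Y by linarith)
  have e2 := mul_le_mul_of_nonneg_left h2 hY.le
  nlinarith

theorem p3 {X Y z X' Y' z' α m h : ℝ} (hX : 0 ≤ X) (hX' : 0 ≤ X') (hY : 0 < Y) (hYY : Y ≤ Y')
    (hz : z ≤ 1) (h0 : 0 ≤ h)
    (h1 : 1 ≤ z + α * (-1 - X) + m * (0 - Y)) (h2 : z' ≤ z + α * (-X' - X) + m * (Y' - Y))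
    (ha : h ≤ α) : z' ≤ 1 - h * (X + X') := by
  have e := p3aux hY hYY h1 h2
  have e1 : 0 ≤ α * ((Y' - Y) * (1 + X)) :=
    mul_nonneg (h0.trans ha) (mul_nonneg (by linarith) (by linarith))
  have e2 : 0 ≤ (1 - z) * (Y' - Y) := mul_nonneg (by linarith) (by linarith)
  have e3 : Y * (α * (X + X')) ≤ Y * (z - z') := by nlinarith
  have e4 : α * (X + X') ≤ z - z' := le_of_mul_le_mul_left e3 hY
  have e5 := mul_le_mul_of_nonneg_right ha (show 0 ≤ X + X' by linarith)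
  linarith

theorem p1 {X Y z X' Y' z' α m n β h : ℝ} (hX : 0 ≤ X) (hX'0 : 0 ≤ X') (hXp : 0 < X + X')
    (hY : 0 < Y) (hYY : Y ≤ Y')
    (hX' : X' ≤ 1) (hz : z ≤ 1) (h0 : 0 < h) (hXY : Y < 1 + X)
    (h1 : 1 ≤ z + α * (-1 - X) + m * (0 - Y)) (h2 : z' ≤ z + α * (-X' - X) + m * (Y' - Y))
    (h3 : 1 ≤ z' + n * (-1 - -X') - β * (0 - Y')) (h4 : z ≤ z' + n * (X - -X') - β * (Y - Y'))
    (ha : h ≤ α) (hb : β ≤ h) : False := by
  have e := p3aux hY hYY h1 h2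
  have e2 : 0 ≤ (1 - z) * (Y' - Y) := mul_nonneg (by linarith) (by linarith)
  have e3 := mul_le_mul_of_nonneg_left h4 (show 0 ≤ 1 - X' by linarith)
  have e4 := mul_le_mul_of_nonneg_left h3 (show 0 ≤ X + X' by linarith)
  have e5 : 0 ≤ (X + X') * (1 - z) := mul_nonneg (by linarith) (by linarith)
  have hS : 0 < Y * (X + X') + (Y' - Y) * (1 + X) := by
    have f1 : 0 < Y * (X + X') := mul_pos hY hXp
    have f2 : 0 ≤ (Y' - Y) * (1 + X) := mul_nonneg (by linarith) (by linarith)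
    linarith
  have e6 : (1 + X) * (z - z') ≤ β * (Y * (X + X') + (Y' - Y) * (1 + X)) := by nlinarith
  have e7 : h * (Y * (X + X') + (Y' - Y) * (1 + X)) ≤ Y * (z - z') := by
    have := mul_le_mul_of_nonneg_right ha hS.le
    linarith
  have e8 : β * (Y * (X + X') + (Y' - Y) * (1 + X)) ≤ h * (Y * (X + X') + (Y' - Y) * (1 + X)) :=
    mul_le_mul_of_nonneg_right hb hS.le
  have e9 : 0 < h * (Y * (X + X') + (Y' - Y) * (1 + X)) := mul_pos h0 hS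
  have e10 : 0 < z - z' := by
    by_contra hcon
    push Not at hcon
    have := mul_nonpos_of_nonneg_of_nonpos hY.le hcon
    linarith
  have e11 : (1 + X) * (z - z') ≤ Y * (z - z') := by linarith
  have e12 : 1 + X ≤ Y := le_of_mul_le_mul_right e11 e10
  linarith

/-- first half of `p2`, and `p4` -/
theorem p4aux {X Y z X' Y' z' a c : ℝ} (hX : 0 < X) (hXX : X ≤ X')
    (h1 : z + a * (0 - X) + c * (-1 - Y) ≤ 0) (h2 : z + a * (X' - X) + c * (-Y' - Y) ≤ z') :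
    (-c) * (X * (Y + Y') + (X' - X) * (1 + Y)) + z * (X' - X) ≤ X * (z' - z) := by
  have e1 := mul_le_mul_of_nonneg_left h1 (show 0 ≤ X' - X by linarith)
  have e2 := mul_le_mul_of_nonneg_left h2 hX.le
  nlinarith

theorem p4 {X Y z X' Y' z' a c h : ℝ} (hY : 0 ≤ Y) (hY' : 0 ≤ Y') (hX : 0 < X) (hXX : X ≤ X')
    (hz : 0 ≤ z) (h0 : 0 ≤ h)
    (h1 : z + a * (0 - X) + c * (-1 - Y) ≤ 0) (h2 : z + a * (X' - X) + c * (-Y' - Y) ≤ z')
    (ha : c ≤ -h) : h * (Y + Y') ≤ z' := by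
  have e := p4aux hX hXX h1 h2
  have e1 : 0 ≤ (-c) * ((X' - X) * (1 + Y)) :=
    mul_nonneg (by linarith) (mul_nonneg (by linarith) (by linarith))
  have e2 : 0 ≤ z * (X' - X) := mul_nonneg hz (by linarith)
  have e3 : X * ((-c) * (Y + Y')) ≤ X * (z' - z) := by nlinarith
  have e4 : (-c) * (Y + Y') ≤ z' - z := le_of_mul_le_mul_left e3 hX
  have e5 := mul_le_mul_of_nonneg_right (show h ≤ -c by linarith) (show 0 ≤ Y + Y' by linarith)
  linarith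

theorem p2 {X Y z X' Y' z' a c a' c' h : ℝ} (hY : 0 ≤ Y) (hY'0 : 0 ≤ Y') (hYp : 0 < Y + Y')
    (hX : 0 < X) (hXX : X ≤ X')
    (hY' : Y' ≤ 1) (hz : 0 ≤ z) (h0 : 0 < h) (hXY : X < 1 + Y)
    (h1 : z + a * (0 - X) + c * (-1 - Y) ≤ 0) (h2 : z + a * (X' - X) + c * (-Y' - Y) ≤ z')
    (h3 : z' + a' * (0 - X') + c' * (-1 - -Y') ≤ 0)
    (h4 : z' + a' * (X - X') + c' * (Y - -Y') ≤ z)
    (ha : c ≤ -h) (hb : a' ≤ h) : False := by
  have e := p4aux hX hXX h1 h2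
  have e2 : 0 ≤ z * (X' - X) := mul_nonneg hz (by linarith)
  have e3 := mul_le_mul_of_nonneg_left h4 (show 0 ≤ 1 - Y' by linarith)
  have e4 := mul_le_mul_of_nonneg_left h3 (show 0 ≤ Y + Y' by linarith)
  have e5 : 0 ≤ (Y + Y') * z := mul_nonneg (by linarith) hz
  have hS : 0 < X * (Y + Y') + (X' - X) * (1 + Y) := by
    have f1 : 0 < X * (Y + Y') := mul_pos hX hYp
    have f2 : 0 ≤ (X' - X) * (1 + Y) := mul_nonneg (by linarith) (by linarith)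
    linarith
  have e6 : (1 + Y) * (z' - z) ≤ a' * (X * (Y + Y') + (X' - X) * (1 + Y)) := by nlinarith
  have e7 : h * (X * (Y + Y') + (X' - X) * (1 + Y)) ≤ X * (z' - z) := by
    have := mul_le_mul_of_nonneg_right (show h ≤ -c by linarith) hS.le
    linarith
  have e8 : a' * (X * (Y + Y') + (X' - X) * (1 + Y)) ≤ h * (X * (Y + Y') + (X' - X) * (1 + Y)) :=
    mul_le_mul_of_nonneg_right hb hS.le
  have e9 : 0 < h * (X * (Y + Y') + (X' - X) * (1 + Y)) := mul_pos h0 hS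
  have e10 : 0 < z' - z := by
    by_contra hcon
    push Not at hcon
    have := mul_nonpos_of_nonneg_of_nonpos hX.le hcon
    linarith
  have e11 : (1 + Y) * (z' - z) ≤ X * (z' - z) := by linarith
  have e12 : 1 + Y ≤ X := le_of_mul_le_mul_right e11 e10
  linarith

end Pool.Agent.Helper66.HT
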