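import Pool.Agent.Helper66.HT.Types

/-!
The contradiction between three points which are not illuminated.
-/

set_option autoImplicit false

open Set Topology Filter

namespace Pool.Agent.Helper66.HT

open Pool.Agent.W867.Cov3 (Ill cover_of_ill)

/-- `K'` is the mirror image of `K` -/
structure Mir (K K' : Set (ℂ × ℝ)) : Prop where
  down : ∀ p ∈ K, ((⟨p.1.re, -p.1.im⟩ : ℂ), p.2) ∈ K'
  left : ∀ p ∈ K, ((⟨-p.1.re, p.1.im⟩ : ℂ), p.2) ∈ K'

section

variable {K K' : Set (ℂ × ℝ)} {κ l κ' l' : ℝ}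

theorem P1 (B : NB K κ l) (B' : NB K' κ' l') (R : Mir K K') (R' : Mir K' K)
    {p q : ℂ × ℝ} (hp : p ∈ K) (hq : q ∈ K') (P : Pos p) (Q : Pos q) (hy : p.1.im ≤ q.1.im)
    (hx : q.1.re ≤ 1) {h : ℝ} (h0 : 0 < h) (Hp : Up1 K p h) (Hq : Up2 K' q h) : False := by
  obtain ⟨α, m, ha, hL⟩ := Hp
  obtain ⟨n, β, hb, hM⟩ := Hq
  have e1 := hL _ B.ht'
  have e2 := hL _ (R'.left _ hq)
  have e3 := hM _ B'.ht
  have e4 := hM _ (R.left _ hp)
  simp only at e1 e2 e3 e4
  exact p1 (n := -n) P.x.le Q.x.le (add_pos P.x Q.x) P.y hy hx P.z1 h0 P.xy e1 e2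
    (by linarith) (by linarith) ha hb

theorem P2 (B : NB K κ l) (B' : NB K' κ' l') (R : Mir K K') (R' : Mir K' K)
    {p q : ℂ × ℝ} (hp : p ∈ K) (hq : q ∈ K') (P : Pos p) (Q : Pos q) (hx : p.1.re ≤ q.1.re)
    (hy : q.1.im ≤ 1) {h : ℝ} (h0 : 0 < h) (Hp : Lo2 K p h) (Hq : Lo1 K' q h) : False := by
  obtain ⟨a, c, hc, hL⟩ := Hp
  obtain ⟨a', c', ha', hM⟩ := Hq
  have e1 := hL _ B.hb'
  have e2 := hL _ (R'.down _ hq)
  have e3 := hM _ B'.hb
  have e4 := hM _ (R.down _ hp)
  simp only at e1 e2 e3 e4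
  exact p2 (a' := a') (c' := -c') P.y.le Q.y.le (add_pos P.y Q.y) P.x hx hy P.z0 h0 P.yx e1 e2
    (by linarith) (by linarith) hc ha'

theorem P3 (B : NB K κ l) (R' : Mir K' K)
    {p q : ℂ × ℝ} (hq : q ∈ K') (P : Pos p) (Q : Pos q) (hy : p.1.im ≤ q.1.im)
    {h : ℝ} (h0 : 0 < h) (Hp : Up1 K p h) : q.2 ≤ 1 - h * (p.1.re + q.1.re) := by
  obtain ⟨α, m, ha, hL⟩ := Hp
  exact p3 P.x.le Q.x.le P.y hy P.z1 h0.le (hL _ B.ht') (hL _ (R'.left _ hq)) ha

theorem P4 (B : NB K κ l) (R' : Mir K' K)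
    {p q : ℂ × ℝ} (hq : q ∈ K') (P : Pos p) (Q : Pos q) (hx : p.1.re ≤ q.1.re)
    {h : ℝ} (h0 : 0 < h) (Hp : Lo2 K p h) : h * (p.1.im + q.1.im) ≤ q.2 := by
  obtain ⟨a, c, hc, hL⟩ := Hp
  exact p4 P.y.le Q.y.le P.x hx P.z0 h0.le (hL _ B.hb') (hL _ (R'.down _ hq)) hc

theorem core (B : NB K κ l) (B' : NB K' κ' l') (R : Mir K K') (R' : Mir K' K)
    {h h' : ℝ} (h0 : 0 < h) (h0' : 0 < h') (hh : h + h' = 1) {v w u : ℂ × ℝ}
    (hv : v ∈ K) (V : Pos v) (hvx : v.1.re < 1) (hv2 : Up2 K v h')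
    (hv1 : Up1 K v h ∨ Lo1 K v h ∨ 1 < v.1.im)
    (hw : w ∈ K) (W : Pos w) (hwx : w.1.re < 1) (hw2 : Lo2 K w h')
    (hw1 : Up1 K w h ∨ Lo1 K w h ∨ 1 < w.1.im)
    (hu : u ∈ K') (U : Pos u) (hu1 : Up1 K' u h' ∨ Lo1 K' u h' ∨ 1 < u.1.im)
    (hu2 : Up2 K' u h ∨ Lo2 K' u h ∨ 1 < u.1.re)
    (hvu : 1 < u.1.im → v.1.im ≤ 1) (hwu : 1 < u.1.im → w.1.im ≤ 1) : False := by
  -- the type of `v`
  have hvt : v.1.im ≤ 1 → Up1 K v h := by
    intro hy
    rcases hv1 with h1 | h1 | h1
    · exact h1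
    · exfalso
      have e1 := B.S1 V hy h1
      have e2 := B.S2 V hvx.le hv2
      have e3 := mul_lt_mul_of_pos_left hvx h0
      have e4 := mul_le_mul_of_nonneg_left hy h0'.le
      linarith
    · linarith
  have hwt : w.1.im ≤ 1 → Lo1 K w h := by
    intro hy
    rcases hw1 with h1 | h1 | h1
    · exfalso
      have e1 := B.S3 W hy h1
      have e2 := B.S4 W hwx.le hw2
      have e3 := mul_lt_mul_of_pos_left hwx h0'
      have e4 := mul_le_mul_of_nonneg_left hy h0.le
      have e5 : h' = 1 - h := by linarith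
      subst e5
      nlinarith
    · exact h1
    · linarith
  rcases le_or_gt u.1.im 1 with huy | huy
  · rcases hu1 with h1 | h1 | h1
    · -- upper type
      have hyy : v.1.im < u.1.im := by
        by_contra hcon
        push Not at hcon
        exact P1 B' B R' R hu hv U V hcon hvx.le h0' h1 hv2
      have hv3 := hvt (by linarith)
      have e1 := P3 B R' hu V U hyy.le h0 hv3
      have e2 := B'.S3 U huy h1
      have hux : u.1.re < 1 := by
        have f1 : h' * u.1.im ≤ h' * 1 := mul_le_mul_of_nonneg_left huy h0'.le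
        have f2 := mul_pos h0 V.x
        have e5 : h' = 1 - h := by linarith
        subst e5
        nlinarith
      rcases hu2 with h2 | h2 | h2
      · exact P1 B B' R R' hv hu V U hyy.le hux.le h0 hv3 h2
      · have e3 := B'.S4 U hux.le h2
        have f1 := mul_lt_mul_of_pos_left hux h0
        have f2 := mul_le_mul_of_nonneg_left huy h0'.le
        have e5 : h' = 1 - h := by linarith
        subst e5
        nlinarith
      · linarith
    · -- lower type
      have hxx : u.1.re < w.1.re := by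
        by_contra hcon
        push Not at hcon
        exact P2 B B' R R' hw hu W U hcon huy h0' hw2 h1
      have hux : u.1.re < 1 := hxx.trans hwx
      rcases hu2 with h2 | h2 | h2
      · have e1 := B'.S1 U huy h1
        have e2 := B'.S2 U hux.le h2
        have f1 := mul_lt_mul_of_pos_left hux h0'
        have f2 := mul_le_mul_of_nonneg_left huy h0.le
        linarith
      · rcases le_or_gt w.1.im 1 with hwy | hwy
        · exact P2 B' B R' R hu hw U W hxx.le hwy h0 h2 (hwt hwy)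
        · have e1 := P4 B' R hw U W hxx.le h0 h2
          have e2 := B.S4 W hwx.le hw2
          have f1 := mul_pos h0 U.y
          have f2 : h' * w.1.re ≤ h' * 1 := mul_le_mul_of_nonneg_left hwx.le h0'.le
          have e5 : h' = 1 - h := by linarith
          subst e5
          nlinarith
      · linarith
    · linarith
  · have hvy := hvu huy
    have hwy := hwu huy
    have hv3 := hvt hvy
    have hw3 := hwt hwy
    have e1 := P3 B R' hu V U (by linarith) h0 hv3
    rcases lt_or_ge 1 u.1.re with hux | hux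
    · have e2 := P4 B R' hu W U (by linarith) h0' hw2
      have f1 := mul_lt_mul_of_pos_left hux h0
      have f2 := mul_lt_mul_of_pos_left huy h0'
      have f3 := mul_pos h0 V.x
      have f4 := mul_pos h0' W.y
      nlinarith
    · rcases hu2 with h2 | h2 | h2
      · exact P1 B B' R R' hv hu V U (by linarith) hux h0 hv3 h2
      · rcases le_or_gt w.1.re u.1.re with hxx | hxx
        · have e2 := P4 B R' hu W U hxx h0' hw2
          have e3 := B'.S4 U hux h2
          have f1 : h * u.1.re ≤ h * 1 := mul_le_mul_of_nonneg_left hux h0.le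
          have f4 := mul_pos h0' W.y
          have e5 : h' = 1 - h := by linarith
          subst e5
          nlinarith
        · exact P2 B' B R' R hu hw U W hxx.le hwy h0 h2 hw3
      · linarith

end

end Pool.Agent.Helper66.HT
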