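import Pool.Agent.Helper66.HT.Sel
import Pool.Graph.R_seed8.W867.Cov3.Three

/-!
Eight directions for a normalised body.
-/

set_option autoImplicit false

open Set Topology Filter

namespace Pool.Agent.Helper66.HT

open Pool.Agent.W867.Cov3 (Ill cover_of_ill Cov8)

/-- the mirror image of a direction of illumination -/
theorem ill_mir {K : Set (ℂ × ℝ)} {w p : ℂ × ℝ} (h : Ill (mir K) w p) :
    Ill K ((starRingEnd ℂ) w.1, w.2) ((starRingEnd ℂ) p.1, p.2) := by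
  obtain ⟨r, hr, hi⟩ := h
  refine ⟨r, hr, ?_⟩
  let e : (ℂ × ℝ) ≃ₜ (ℂ × ℝ) :=
    { toFun := fun p => ((starRingEnd ℂ) p.1, p.2)
      invFun := fun p => ((starRingEnd ℂ) p.1, p.2)
      left_inv := fun p => by simp
      right_inv := fun p => by simp
      continuous_toFun := by fun_prop
      continuous_invFun := by fun_prop }
  have hpre : mir K = e ⁻¹' K := rfl
  rw [hpre, ← e.preimage_interior] at hi
  have hi' : e (p + r • w) ∈ interior K := hi
  convert hi' using 1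
  refine Prod.ext ?_ ?_
  · change _ = (starRingEnd ℂ) (p + r • w).1
    simp
  · rfl

theorem sil_mir {K : Set (ℂ × ℝ)} {p : ℂ × ℝ} (h : p ∈ Sil K) :
    ((starRingEnd ℂ) p.1, p.2) ∈ Sil (mir K) := by
  let e : (ℂ × ℝ) ≃ₜ (ℂ × ℝ) :=
    { toFun := fun p => ((starRingEnd ℂ) p.1, p.2)
      invFun := fun p => ((starRingEnd ℂ) p.1, p.2)
      left_inv := fun p => by simp
      right_inv := fun p => by simp
      continuous_toFun := by fun_prop
      continuous_invFun := by fun_prop }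
  have hpre : mir K = e ⁻¹' K := rfl
  refine ⟨?_, fun z hz => h.2 z ?_⟩
  · change _ ∈ K
    simpa using h.1
  · rw [hpre, ← e.preimage_interior] at hz
    have hz' : e ((starRingEnd ℂ) p.1, z) ∈ interior K := hz
    have h2 : e ((starRingEnd ℂ) p.1, z) = (p.1, z) := by
      change ((starRingEnd ℂ) ((starRingEnd ℂ) p.1), z) = _
      simp
    rwa [h2] at hz'

section Sym

variable {K : Set (ℂ × ℝ)} (hs : ∀ p ∈ K, ((-p.1, p.2) : ℂ × ℝ) ∈ K)

include hs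

theorem interior_sym {p : ℂ × ℝ} (hp : p ∈ interior K) : ((-p.1, p.2) : ℂ × ℝ) ∈ interior K := by
  let e : (ℂ × ℝ) ≃ₜ (ℂ × ℝ) :=
    { toFun := fun p => (-p.1, p.2)
      invFun := fun p => (-p.1, p.2)
      left_inv := fun p => by simp
      right_inv := fun p => by simp
      continuous_toFun := by fun_prop
      continuous_invFun := by fun_prop }
  have hpre : K = e ⁻¹' K := by
    ext q
    constructor
    · exact fun hq => hs q hq
    · intro hq
      have := hs _ hq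
      change (-(-q.1), q.2) ∈ K at this
      simpa using this
  rw [hpre, ← e.preimage_interior] at hp
  exact hp

theorem ill_sym {w p : ℂ × ℝ} (h : Ill K w p) : Ill K (-w.1, w.2) (-p.1, p.2) := by
  obtain ⟨r, hr, hi⟩ := h
  refine ⟨r, hr, ?_⟩
  convert interior_sym hs hi using 1
  refine Prod.ext ?_ ?_
  · simp [add_comm]
  · simp

theorem sil_sym {p : ℂ × ℝ} (h : p ∈ Sil K) : ((-p.1, p.2) : ℂ × ℝ) ∈ Sil K := by
  refine ⟨hs _ h.1, fun z hz => h.2 z ?_⟩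
  have := interior_sym hs hz
  simpa using this

end Sym

theorem NB.cov {K : Set (ℂ × ℝ)} {κ l : ℝ} (B : NB K κ l)
    (H : ∃ h h' : ℝ, ∀ p ∈ Sil K, 0 ≤ p.1.re → 0 ≤ p.1.im →
      Ill K ((⟨-1, 0⟩ : ℂ), -h) p ∨ Ill K ((⟨0, -1⟩ : ℂ), h') p) : Cov8 K := by
  obtain ⟨h, h', H⟩ := H
  have B' : NB (mir K) (-κ) (-l) := B.mirror
  suffices key : ∀ p ∈ K, ∃ i : Fin 8, Ill K
      ((![((0 : ℂ), (1 : ℝ)), ((0 : ℂ), (-1 : ℝ)), ((⟨-1, 0⟩ : ℂ), -h), ((⟨1, 0⟩ : ℂ), -h),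
      ((⟨0, -1⟩ : ℂ), h'), ((⟨0, 1⟩ : ℂ), h'), ((⟨-1, 1⟩ : ℂ), 0), ((⟨1, -1⟩ : ℂ), 0)] :
        Fin 8 → ℂ × ℝ) i) p by
    obtain ⟨T, hT, hcov⟩ := cover_of_ill B.conv B.comp _ key
    refine ⟨T, ?_, hcov⟩
    rw [Fintype.card_fin] at hT
    exact hT
  intro p hp
  by_cases hS : p ∈ Sil K
  · -- quadrants
    have hQ1 : ∀ p ∈ Sil K, 0 ≤ p.1.re → 0 ≤ p.1.im → ∃ i : Fin 8, Ill K
      ((![((0 : ℂ), (1 : ℝ)), ((0 : ℂ), (-1 : ℝ)), ((⟨-1, 0⟩ : ℂ), -h), ((⟨1, 0⟩ : ℂ), -h),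
      ((⟨0, -1⟩ : ℂ), h'), ((⟨0, 1⟩ : ℂ), h'), ((⟨-1, 1⟩ : ℂ), 0), ((⟨1, -1⟩ : ℂ), 0)] :
        Fin 8 → ℂ × ℝ) i) p := by
      intro p hS hx hy
      rcases H p hS hx hy with h1 | h1
      · exact ⟨2, h1⟩
      · exact ⟨4, h1⟩
    have hQ3 : ∀ p ∈ Sil K, p.1.re ≤ 0 → p.1.im ≤ 0 → ∃ i : Fin 8, Ill K
      ((![((0 : ℂ), (1 : ℝ)), ((0 : ℂ), (-1 : ℝ)), ((⟨-1, 0⟩ : ℂ), -h), ((⟨1, 0⟩ : ℂ), -h),
      ((⟨0, -1⟩ : ℂ), h'), ((⟨0, 1⟩ : ℂ), h'), ((⟨-1, 1⟩ : ℂ), 0), ((⟨1, -1⟩ : ℂ), 0)] :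
        Fin 8 → ℂ × ℝ) i) p := by
      intro p hS hx hy
      have hp2 : ((- -p.1, p.2) : ℂ × ℝ) = p := by simp
      rcases H (-p.1, p.2) (sil_sym B.sym hS) (by simpa using hx) (by simpa using hy) with h1 | h1
      · have h2 := ill_sym B.sym h1
        rw [hp2] at h2
        have e : (-(⟨-1, 0⟩ : ℂ)) = ⟨1, 0⟩ := by apply Complex.ext <;> simp
        simp only [e] at h2
        exact ⟨3, h2⟩
      · have h2 := ill_sym B.sym h1
        rw [hp2] at h2
        have e : (-(⟨0, -1⟩ : ℂ)) = ⟨0, 1⟩ := by apply Complex.ext <;> simp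
        simp only [e] at h2
        exact ⟨5, h2⟩
    have hQ4 : ∀ p ∈ Sil K, 0 < p.1.re → p.1.im < 0 → Ill K ((⟨-1, 1⟩ : ℂ), 0) p := by
      intro p hS hx hy
      have h1 := sil_mir hS
      have hpt : (((starRingEnd ℂ) p.1, p.2) : ℂ × ℝ) ≠ (⟨1, 0⟩, 1) := by
        intro h2
        have h3 := congrArg (fun q : ℂ × ℝ => q.1.im) h2
        simp at h3
        linarith
      have hpb : (((starRingEnd ℂ) p.1, p.2) : ℂ × ℝ) ≠ (⟨0, 1⟩, 0) := by
        intro h2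
        have h3 := congrArg (fun q : ℂ × ℝ => q.1.re) h2
        simp at h3
        linarith
      have P := B'.pos h1 (by simpa using hx.le) (by simpa using hy.le) hpt hpb
      have h2 := ill_mir (B'.mid h1.1 P)
      convert h2 using 2
      · apply Complex.ext <;> simp
      · simp
    rcases le_or_gt 0 p.1.re with hx | hx
    · rcases le_or_gt 0 p.1.im with hy | hy
      · exact hQ1 p hS hx hy
      · rcases hx.eq_or_lt with hx0 | hx0
        · exact hQ3 p hS hx0.symm.le hy.le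
        · exact ⟨6, hQ4 p hS hx0 hy⟩
    · rcases le_or_gt p.1.im 0 with hy | hy
      · exact hQ3 p hS hx.le hy
      · have h1 := hQ4 (-p.1, p.2) (sil_sym B.sym hS) (by simpa using hx) (by simpa using hy)
        have h2 := ill_sym B.sym h1
        have e : (-(⟨-1, 1⟩ : ℂ)) = ⟨1, -1⟩ := by apply Complex.ext <;> simp
        simp only [e, neg_neg] at h2
        exact ⟨7, h2⟩
  · -- over the interior of the shadow
    have h1 : ∃ z : ℝ, (p.1, z) ∈ interior K := by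
      by_contra hcon
      push Not at hcon
      exact hS ⟨hp, hcon⟩
    obtain ⟨z, hz⟩ := h1
    rcases lt_trichotomy p.2 z with h2 | h2 | h2
    · refine ⟨0, z - p.2, by linarith, ?_⟩
      convert hz using 1
      refine Prod.ext ?_ ?_
      · simp
      · simp
    · refine ⟨0, Ill.of_interior ?_⟩
      rw [← h2] at hz
      exact hz
    · refine ⟨1, p.2 - z, by linarith, ?_⟩
      convert hz using 1
      refine Prod.ext ?_ ?_
      · simp
      · simp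

theorem cov_mir {K : Set (ℂ × ℝ)} (h : Cov8 (mir K)) : Cov8 K := by
  let e : (ℂ × ℝ) ≃L[ℝ] (ℂ × ℝ) := (Complex.conjCLE).prodCongr (ContinuousLinearEquiv.refl ℝ ℝ)
  have he : ∀ p : ℂ × ℝ, e p = ((starRingEnd ℂ) p.1, p.2) := fun p => rfl
  refine Cov8.of_image e ?_
  have h2 : e '' K = mir K := by
    ext p
    constructor
    · rintro ⟨q, hq, rfl⟩
      change _ ∈ K
      rw [he]
      simpa using hq
    · intro hp
      refine ⟨((starRingEnd ℂ) p.1, p.2), hp, ?_⟩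
      rw [he]
      simp
  rw [h2]
  exact h

theorem NB.cov8_of_nonneg {K : Set (ℂ × ℝ)} {κ l : ℝ} (B : NB K κ l) (hκ : 0 ≤ κ) : Cov8 K := by
  rcases B.select hκ with ⟨h, -, -, H⟩ | ⟨h, -, -, H⟩
  · exact B.cov ⟨h, 1 - h, H⟩
  · exact cov_mir (NB.cov (B.mirror) ⟨1 - h, h, H⟩)

theorem NB.cov8 {K : Set (ℂ × ℝ)} {κ l : ℝ} (B : NB K κ l) : Cov8 K := by
  rcases le_total 0 κ with h | h
  · exact B.cov8_of_nonneg h
  · exact cov_mir (NB.cov8_of_nonneg B.mirror (by linarith))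

end Pool.Agent.Helper66.HT
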