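import Pool.Agent.Helper66.HT.Main
import Pool.Graph.R_seed8.W867.Cov3.Sym2

/-!
Affine symmetries of strictly convex bodies in three-dimensional spaces.
-/

set_option autoImplicit false

open Set Topology Filter Module

namespace Pool.Agent.Helper66.HT

open Pool.Agent.W867.Cov3 (Ill cover_of_ill Cov8 exists_fixed det_ne_zero cov_affine')

theorem half_turn_form {V : Type*} [AddCommGroup V] [Module ℝ V] [FiniteDimensional ℝ V]
    (hdim : finrank ℝ V = 3) (T : V →ₗ[ℝ] V) (hT : ∀ v, T (T v) = v) (hne : ∃ v, T v ≠ v)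
    (hdet : 0 < LinearMap.det T) :
    ∃ L : (ℂ × ℝ) ≃ₗ[ℝ] V, ∀ p : ℂ × ℝ, T (L p) = L (-p.1, p.2) := by
  let W : Submodule ℝ V := LinearMap.ker (T + LinearMap.id)
  have hW : ∀ v, v ∈ W ↔ T v = -v := by
    intro v
    rw [LinearMap.mem_ker, LinearMap.add_apply, LinearMap.id_apply, add_eq_zero_iff_eq_neg]
  have he : W ≤ W.comap T := by
    intro v hv
    rw [Submodule.mem_comap, hW, hT]
    rw [(hW v).1 hv, neg_neg]
  have h1 := LinearMap.det_eq_det_mul_det W T he
  have h2 : T.restrict (p := W) (q := W) he = (-1 : ℝ) • LinearMap.id := by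
    ext w
    simp only [LinearMap.coe_restrict_apply, LinearMap.smul_apply, LinearMap.id_apply, neg_smul,
      one_smul, Submodule.coe_neg]
    exact (hW _).1 w.2
  have h3 : W.mapQ W T he = LinearMap.id := by
    ext v
    simp only [LinearMap.comp_apply, Submodule.mkQ_apply, Submodule.mapQ_apply,
      LinearMap.id_apply]
    rw [Submodule.Quotient.eq, hW, map_sub, hT]
    abel
  rw [h2, h3, LinearMap.det_smul, LinearMap.det_id, LinearMap.det_id, mul_one, mul_one] at h1
  rw [h1] at hdet
  have hle : finrank ℝ W ≤ 3 := by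
    rw [← hdim]
    exact Submodule.finrank_le W
  have hpos : finrank ℝ W ≠ 0 := by
    intro h0
    rw [Submodule.finrank_eq_zero] at h0
    obtain ⟨v, hv⟩ := hne
    have h4 : T v - v ∈ W := by
      rw [hW, map_sub, hT]
      abel
    rw [h0, Submodule.mem_bot, sub_eq_zero] at h4
    exact hv h4
  have hW2 : finrank ℝ W = 2 := by
    interval_cases h : finrank ℝ W
    · exact absurd rfl hpos
    · norm_num at hdet
    · rfl
    · norm_num at hdet
  let β := finBasisOfFinrankEq ℝ W hW2
  obtain ⟨v, hv⟩ : ∃ v, v ∉ W := by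
    by_contra hcon
    push Not at hcon
    have h5 : W = ⊤ := Submodule.eq_top_iff'.2 hcon
    rw [h5, finrank_top, hdim] at hW2
    norm_num at hW2
  obtain ⟨e, he'⟩ : ∃ e, e = T v + v := ⟨_, rfl⟩
  have he0 : e ≠ 0 := by
    intro h0
    apply hv
    rw [hW]
    rw [he'] at h0
    exact add_eq_zero_iff_eq_neg.1 h0
  have hTe : T e = e := by
    rw [he', map_add, hT, add_comm]
  have hβ : ∀ i, T (β i : V) = -(β i : V) := fun i => (hW _).1 (β i).2
  let L : (ℂ × ℝ) →ₗ[ℝ] V :=
    { toFun := fun p => p.1.re • (β 0 : V) + p.1.im • (β 1 : V) + p.2 • e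
      map_add' := fun p q => by
        simp only [Prod.fst_add, Prod.snd_add, Complex.add_re, Complex.add_im, add_smul]
        abel
      map_smul' := fun r p => by
        simp only [Prod.smul_fst, Prod.smul_snd, Complex.smul_re, Complex.smul_im,
          smul_eq_mul, mul_smul, smul_add, RingHom.id_apply] }
  have hL : ∀ p : ℂ × ℝ, L p = p.1.re • (β 0 : V) + p.1.im • (β 1 : V) + p.2 • e := fun _ => rfl
  have hTL : ∀ p : ℂ × ℝ, T (L p) = L (-p.1, p.2) := by
    intro p
    rw [hL, hL]
    simp only [map_add, map_smul, hβ, hTe, Complex.neg_re, Complex.neg_im]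
    module
  have hinj : Function.Injective L := by
    rw [injective_iff_map_eq_zero]
    intro p hp
    have h5 : T (L p) = 0 := by rw [hp, map_zero]
    rw [hTL, hL] at h5
    rw [hL] at hp
    simp only [Complex.neg_re, Complex.neg_im] at h5
    have h6 : (2 * p.2) • e = 0 := by
      have : (2 * p.2) • e = (p.1.re • (β 0 : V) + p.1.im • (β 1 : V) + p.2 • e) +
          (-p.1.re • (β 0 : V) + -p.1.im • (β 1 : V) + p.2 • e) := by module
      rw [this, hp, h5, add_zero]
    have h7 : p.2 = 0 := by
      rcases smul_eq_zero.1 h6 with h | h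
      · linarith
      · exact absurd h he0
    rw [h7, zero_smul, add_zero] at hp
    have h8 : p.1.re • β 0 + p.1.im • β 1 = 0 := by
      apply Subtype.ext
      simpa using hp
    have h10 : LinearIndependent ℝ ![β 0, β 1] := by
      have h11 : (![β 0, β 1] : Fin 2 → W) = β := by
        ext i
        fin_cases i <;> rfl
      rw [h11]
      exact β.linearIndependent
    have h9 := LinearIndependent.pair_iff.1 h10 _ _ h8
    refine Prod.ext ?_ h7
    exact Complex.ext h9.1 h9.2
  have hfin : finrank ℝ (ℂ × ℝ) = finrank ℝ V := by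
    rw [hdim, Module.finrank_prod, Complex.finrank_real_complex, Module.finrank_self]
  exact ⟨L.linearEquivOfInjective hinj hfin, fun p => hTL p⟩

variable {V : Type*} [NormedAddCommGroup V] [NormedSpace ℝ V]

theorem cov_half_turn [FiniteDimensional ℝ V] (hdim : finrank ℝ V = 3) {K : Set V}
    (hK : Convex ℝ K) (hc : IsCompact K) (hint : (interior K).Nonempty) (T : V →ₗ[ℝ] V)
    (hT : ∀ v, T (T v) = v) (hne : ∃ v, T v ≠ v) (hdet : 0 < LinearMap.det T)
    (hTK : ∀ v ∈ K, T v ∈ K)
    (hS : ∀ d, T d = d → d ≠ 0 → ∀ p ∈ K, (∀ r : ℝ, p + r • d ∉ interior K) →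
      ∀ q ∈ K, q ≠ p → openSegment ℝ p q ⊆ interior K) : Cov8 K := by
  obtain ⟨L, hL⟩ := half_turn_form hdim T hT hne hdet
  let Lc : V ≃L[ℝ] (ℂ × ℝ) := L.symm.toContinuousLinearEquiv
  have hLc : ∀ v, Lc v = L.symm v := fun v => rfl
  have hmem : ∀ p, p ∈ Lc '' K ↔ L p ∈ K := by
    intro p
    constructor
    · rintro ⟨v, hv, rfl⟩
      rw [hLc, L.apply_symm_apply]
      exact hv
    · intro hp
      exact ⟨L p, hp, by rw [hLc, L.symm_apply_apply]⟩
  have hi : interior (Lc '' K) = Lc '' interior K := (Lc.toHomeomorph.image_interior K).symm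
  have hmemi : ∀ p, p ∈ interior (Lc '' K) ↔ L p ∈ interior K := by
    intro p
    rw [hi]
    constructor
    · rintro ⟨v, hv, rfl⟩
      rw [hLc, L.apply_symm_apply]
      exact hv
    · intro hp
      exact ⟨L p, hp, by rw [hLc, L.symm_apply_apply]⟩
  refine Cov8.of_image Lc (SB.cov8 ?_)
  exact
  { conv := hK.linear_image (Lc : V →L[ℝ] (ℂ × ℝ)).toLinearMap
    strict := by
      intro p hp q hq hpq a b ha hb hab
      have h1 : T (L (0, 1)) = L (0, 1) := by
        rw [hL]
        simp
      have h2 : L (0, 1) ≠ 0 := by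
        intro h
        have h3 : ((0 : ℂ), (1 : ℝ)) = 0 := by
          apply L.injective
          rw [h, map_zero]
        have := congrArg Prod.snd h3
        simp at this
      have h4 := hS _ h1 h2 (L p) ((hmem p).1 hp.1) (by
        intro r hr
        apply hp.2 (p.2 + r)
        rw [hmemi]
        have h5 : (p.1, p.2 + r) = p + r • ((0 : ℂ), (1 : ℝ)) := by
          refine Prod.ext ?_ ?_
          · simp
          · simp
        rw [h5, map_add, map_smul]
        exact hr) (L q) ((hmem q).1 hq) (fun h => hpq (L.injective h).symm)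
      rw [hmemi, map_add, map_smul, map_smul]
      exact h4 ⟨a, b, ha, hb, hab, rfl⟩
    comp := hc.image Lc.continuous
    int := by
      rw [hi]
      exact hint.image _
    sym := fun p hp => by
      rw [hmem] at hp ⊢
      rw [← hL]
      exact hTK _ hp }

/-- affine half-turns -/
theorem cov_involution [FiniteDimensional ℝ V] (hdim : finrank ℝ V = 3) {K : Set V}
    (hK : Convex ℝ K) (hc : IsCompact K) (hint : (interior K).Nonempty) (g : V →ᵃ[ℝ] V)
    (hg : g '' K = K) (hdet : 0 < LinearMap.det g.linear) (hgg : ∀ v, g (g v) = v)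
    (hne : ∃ v, g v ≠ v)
    (hS : ∀ d, g.linear d = d → d ≠ 0 → ∀ p ∈ K, (∀ r : ℝ, p + r • d ∉ interior K) →
      ∀ q ∈ K, q ≠ p → openSegment ℝ p q ⊆ interior K) : Cov8 K := by
  have hgK : ∀ x ∈ K, g x ∈ K := fun x hx => by
    rw [← hg]
    exact mem_image_of_mem g hx
  obtain ⟨c, hcK, hgc⟩ := exists_fixed g hK hc (hint.mono interior_subset) hgK
  have hgv : ∀ v, g (c + v) = c + g.linear v := by
    intro v
    have := g.map_vadd c v
    simp only [vadd_eq_add] at this
    rw [add_comm, this, hgc, add_comm]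
  have himg : (fun x => -c + x) '' K = {v | c + v ∈ K} := by
    ext v
    constructor
    · rintro ⟨x, hx, rfl⟩
      change c + (-c + x) ∈ K
      rwa [add_neg_cancel_left]
    · intro hv
      exact ⟨c + v, hv, neg_add_cancel_left _ _⟩
  have h5 : interior ((fun x => -c + x) '' K) = (fun x => -c + x) '' interior K :=
    ((Homeomorph.addLeft (-c)).image_interior K).symm
  have hmemi : ∀ v, v ∈ interior ((fun x => -c + x) '' K) ↔ c + v ∈ interior K := by
    intro v
    rw [h5]
    constructor
    · rintro ⟨x, hx, rfl⟩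
      change c + (-c + x) ∈ _
      rwa [add_neg_cancel_left]
    · intro hv
      exact ⟨c + v, hv, neg_add_cancel_left _ _⟩
  have hmem : ∀ v, v ∈ (fun x => -c + x) '' K ↔ c + v ∈ K := by
    intro v
    rw [himg]
    rfl
  refine Cov8.of_translate (-c) ?_
  refine cov_half_turn hdim (T := g.linear) ?_ ?_ ?_ ?_ ?_ hdet ?_ ?_
  · exact hK.translate (-c)
  · exact hc.image (by fun_prop)
  · rw [h5]
    exact hint.image _
  · intro v
    have h6 := hgg (c + v)
    rw [hgv, hgv] at h6
    exact add_left_cancel h6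
  · obtain ⟨x, hx⟩ := hne
    refine ⟨x - c, fun h => hx ?_⟩
    have h6 : x = c + (x - c) := by abel
    rw [h6, hgv, h]
  · intro v hv
    rw [hmem] at hv ⊢
    rw [← hgv]
    exact hgK _ hv
  · intro d hd hd0 p hp hpi q hq hqp x hx
    rw [hmem] at hp hq
    have h7 := hS d hd hd0 (c + p) hp (fun r hr => hpi r (by
      rw [hmemi, ← add_assoc]
      exact hr)) (c + q) hq (fun h => hqp (add_left_cancel h))
    rw [hmemi]
    apply h7
    obtain ⟨a, b, ha, hb, hab, rfl⟩ := hx
    refine ⟨a, b, ha, hb, hab, ?_⟩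
    have h8 : c = (a + b) • c := by rw [hab, one_smul]
    conv_rhs => rw [h8]
    module

end Pool.Agent.Helper66.HT
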