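import Pool.Agent.Helper66.HT.Red

/-!
Bodies with a half-turn symmetry, strictly convex along the silhouette.
-/

set_option autoImplicit false

open Set Topology Filter

namespace Pool.Agent.Helper66.HT

open Pool.Agent.W867.Cov3 (Ill cover_of_ill Cov8)

theorem sil_pre_iff {u v : ℂ} {c s : ℝ} (huv : det2 u v ≠ 0) (hs : s ≠ 0) {K : Set (ℂ × ℝ)}
    {p : ℂ × ℝ} : p ∈ Sil (pre K u v c s) ↔ chg u v c s p ∈ Sil K := by
  refine ⟨sil_pre huv hs, fun h => ⟨h.1, fun z hz => ?_⟩⟩
  rw [interior_pre huv hs] at hz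
  exact h.2 _ hz

theorem det2_left (u v : ℂ) (c s : ℝ) (p : ℂ × ℝ) :
    det2 (chg u v c s p).1 v = p.1.re * det2 u v := by
  simp only [det2, chg, Complex.add_re, Complex.add_im, Complex.smul_re, Complex.smul_im,
    smul_eq_mul]
  ring

theorem det2_right (u v : ℂ) (c s : ℝ) (p : ℂ × ℝ) :
    det2 u (chg u v c s p).1 = p.1.im * det2 u v := by
  simp only [det2, chg, Complex.add_re, Complex.add_im, Complex.smul_re, Complex.smul_im,
    smul_eq_mul]
  ring

theorem chg_t (t b : ℂ × ℝ) (c s : ℝ) (h : c + s = t.2) :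
    chg t.1 b.1 c s (⟨1, 0⟩, 1) = t := by
  refine Prod.ext ?_ ?_
  · simp [chg]
  · simp [chg, h]

theorem chg_b (t b : ℂ × ℝ) (s : ℝ) : chg t.1 b.1 b.2 s (⟨0, 1⟩, 0) = b := by
  refine Prod.ext ?_ ?_
  · simp [chg]
  · simp [chg]

theorem continuous_det2 : Continuous fun x : ℂ × ℂ => det2 x.1 x.2 := by
  unfold det2
  fun_prop

theorem max_sil {K : Set (ℂ × ℝ)} {a b : ℝ} (hab : a ≠ 0 ∨ b ≠ 0) {p : ℂ × ℝ} (hp : p ∈ K)
    (h : ∀ q ∈ K, ev (a, b, 0) q ≤ ev (a, b, 0) p) : p ∈ Sil K := by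
  refine ⟨hp, fun z hz => ?_⟩
  have hn : ((a, b, 0) : ℝ × ℝ × ℝ) ≠ 0 := by
    intro h0
    have h1 : a = 0 := congrArg Prod.fst h0
    have h2 : b = 0 := congrArg (fun q : ℝ × ℝ × ℝ => q.2.1) h0
    rcases hab with h3 | h3
    · exact h3 h1
    · exact h3 h2
  have := ev_lt hn h hz
  simp only [ev] at this
  linarith

namespace SB

variable {K : Set (ℂ × ℝ)} (B : SB K)

include B

theorem nonflat {t₀ b₀ : ℂ × ℝ} (ht₀ : t₀ ∈ Sil K) (hb₀ : b₀ ∈ Sil K)
    (htop : ∀ p ∈ Sil K, p.2 ≤ t₀.2) (hbot : ∀ p ∈ Sil K, b₀.2 ≤ p.2) (hlt : b₀.2 < t₀.2) :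
    Cov8 K := by
  have hTc : IsCompact (Sil K ∩ {p | p.2 = t₀.2}) :=
    (B.comp.of_isClosed_subset (isClosed_sil B.comp.isClosed) (fun p hp => hp.1)).inter_right
      (isClosed_eq (by fun_prop) continuous_const)
  have hBc : IsCompact (Sil K ∩ {p | p.2 = b₀.2}) :=
    (B.comp.of_isClosed_subset (isClosed_sil B.comp.isClosed) (fun p hp => hp.1)).inter_right
      (isClosed_eq (by fun_prop) continuous_const)
  have hcont : Continuous fun x : (ℂ × ℝ) × (ℂ × ℝ) => |det2 x.1.1 x.2.1| := by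
    unfold det2
    fun_prop
  obtain ⟨⟨t, b⟩, ⟨⟨ht, ht2⟩, ⟨hb, hb2⟩⟩, hmin⟩ := (hTc.prod hBc).exists_isMinOn
    ⟨(t₀, b₀), ⟨ht₀, rfl⟩, ⟨hb₀, rfl⟩⟩ hcont.continuousOn
  simp only at ht ht2 hb hb2
  replace ht2 : t.2 = t₀.2 := ht2
  replace hb2 : b.2 = b₀.2 := hb2
  have hmin' : ∀ p ∈ Sil K, ∀ q ∈ Sil K, p.2 = t₀.2 → q.2 = b₀.2 →
      |det2 t.1 b.1| ≤ |det2 p.1 q.1| := by
    intro p hp q hq h1 h2
    exact hmin (show (p, q) ∈ _ from ⟨⟨hp, h1⟩, ⟨hq, h2⟩⟩)
  have hdet : det2 t.1 b.1 ≠ 0 := by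
    intro h0
    have := B.det_zero ht hb h0
    rw [ht2, hb2] at this
    linarith
  have hdpos : 0 < |det2 t.1 b.1| := abs_pos.2 hdet
  have hs : t.2 - b.2 ≠ 0 := by
    rw [ht2, hb2]
    linarith
  have hspos : 0 < t.2 - b.2 := by
    rw [ht2, hb2]
    linarith
  have B2 := B.pre (c := b.2) hdet hs
  have hsil : ∀ p, p ∈ Sil (HT.pre K t.1 b.1 b.2 (t.2 - b.2)) →
      chg t.1 b.1 b.2 (t.2 - b.2) p ∈ Sil K := fun p hp => sil_pre hdet hs hp
  have ht' : ((⟨1, 0⟩ : ℂ), (1 : ℝ)) ∈ Sil (HT.pre K t.1 b.1 b.2 (t.2 - b.2)) := by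
    rw [sil_pre_iff hdet hs, chg_t _ _ _ _ (by ring)]
    exact ht
  have hb' : ((⟨0, 1⟩ : ℂ), (0 : ℝ)) ∈ Sil (HT.pre K t.1 b.1 b.2 (t.2 - b.2)) := by
    rw [sil_pre_iff hdet hs, chg_b]
    exact hb
  obtain ⟨a₁, κ, h1, hκ⟩ := B2.support ht'
  obtain ⟨l, a₂, h2, hl⟩ := B2.support hb'
  simp only [mul_one, mul_zero, add_zero, zero_add] at h1 h2
  subst h1
  subst h2
  refine cov_of_pre (c := b.2) hdet hs (NB.cov8 (κ := κ) (l := l) ?_)
  have hmid : ∀ p ∈ Sil (HT.pre K t.1 b.1 b.2 (t.2 - b.2)), p.1 ≠ 0 →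
      ((0 : ℂ), p.2) ∈ interior (HT.pre K t.1 b.1 b.2 (t.2 - b.2)) := by
    intro p hp hp0
    have h3 := B2.strict p hp _ (B2.sym p hp.1) (by
      intro h4
      have h5 := congrArg Prod.fst h4
      simp only at h5
      exact hp0 (self_eq_neg.1 h5)) (1 / 2) (1 / 2) (by norm_num) (by norm_num) (by norm_num)
    convert h3 using 1
    refine Prod.ext ?_ ?_
    · simp
    · simp only [Prod.snd_add, Prod.smul_snd, smul_eq_mul]
      ring
  have hone : (⟨1, 0⟩ : ℂ) ≠ 0 := by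
    intro h3
    have := congrArg Complex.re h3
    simp at this
  have hI : (⟨0, 1⟩ : ℂ) ≠ 0 := by
    intro h3
    have := congrArg Complex.im h3
    simp at this
  exact
  { conv := B2.conv
    comp := B2.comp
    sym := B2.sym
    ax := by
      intro z h0 h1
      have h3 := hmid _ ht' hone
      have h4 := hmid _ hb' hI
      have h5 := B2.conv.interior h3 h4 h0 (show 0 ≤ 1 - z by linarith) (by ring)
      convert h5 using 1
      refine Prod.ext ?_ ?_
      · simp
      · simp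
    ht := ht'.1
    hb := hb'.1
    uniq := by
      intro a b' hab p hp hmax q hq he
      refine B2.uniq (n := (a, b', 0)) ?_ (max_sil hab hp hmax) hmax hq he
      intro h0
      have h1 : a = 0 := congrArg Prod.fst h0
      have h2 : b' = 0 := congrArg (fun q : ℝ × ℝ × ℝ => q.2.1) h0
      rcases hab with h3 | h3
      · exact h3 h1
      · exact h3 h2
    kt := by
      intro p hp
      have := hκ p hp
      linarith
    kb := by
      intro p hp
      have := hl p hp
      linarith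
    sil := by
      intro p hp
      have h3 := hsil p hp
      have h4 := htop _ h3
      have h5 := hbot _ h3
      simp only [chg] at h4 h5
      rw [← ht2] at h4
      rw [← hb2] at h5
      constructor
      · by_contra hcon
        push Not at hcon
        have := mul_neg_of_pos_of_neg hspos hcon
        linarith
      · by_contra hcon
        push Not at hcon
        have := mul_lt_mul_of_pos_left hcon hspos
        linarith
    top := by
      intro p hp hp2
      have h3 := hsil p hp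
      have h4 := hmin' _ h3 b hb (by
        simp only [chg, hp2]
        rw [← ht2]
        ring) hb2
      rw [det2_left, abs_mul] at h4
      have h5 : 1 * |det2 t.1 b.1| ≤ |p.1.re| * |det2 t.1 b.1| := by linarith
      exact le_of_mul_le_mul_right h5 hdpos
    bot := by
      intro p hp hp2
      have h3 := hsil p hp
      have h4 := hmin' t ht _ h3 ht2 (by
        simp only [chg, hp2]
        rw [← hb2]
        ring)
      rw [det2_right, abs_mul] at h4
      have h5 : 1 * |det2 t.1 b.1| ≤ |p.1.im| * |det2 t.1 b.1| := by linarith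
      exact le_of_mul_le_mul_right h5 hdpos }

theorem flat {c : ℝ} (hflat : ∀ p ∈ Sil K, p.2 = c) : Cov8 K := by
  have hne : K.Nonempty := B.int.mono interior_subset
  -- `t`
  obtain ⟨t, ht, htmax⟩ := B.comp.exists_isMaxOn hne
    (f := fun p : ℂ × ℝ => ev ((1, 0, 0) : ℝ × ℝ × ℝ) p) (by unfold ev; fun_prop)
  have htS : t ∈ Sil K := max_sil (Or.inl one_ne_zero) ht fun q hq => htmax hq
  have ht0 := B.sil_ne htS
  obtain ⟨b, hb, hbmax⟩ := B.comp.exists_isMaxOn hne
    (f := fun p : ℂ × ℝ => ev ((-t.1.im, t.1.re, 0) : ℝ × ℝ × ℝ) p) (by unfold ev; fun_prop)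
  have hbmax' : ∀ q ∈ K, det2 t.1 q.1 ≤ det2 t.1 b.1 := by
    intro q hq
    have := hbmax hq
    change ev _ _ ≤ ev _ _ at this
    simp only [ev] at this
    unfold det2
    linarith
  have hbS : b ∈ Sil K := by
    refine max_sil (a := -t.1.im) (b := t.1.re) ?_ hb fun q hq => hbmax hq
    by_contra hcon
    push Not at hcon
    exact ht0 (Complex.ext hcon.2 (neg_eq_zero.1 hcon.1))
  have hdet : 0 < det2 t.1 b.1 := by
    obtain ⟨z, hz⟩ := B.axis
    obtain ⟨r, hr, h1⟩ := Ill.of_interior (v := ((⟨-t.1.im, t.1.re⟩ : ℂ), (0 : ℝ))) hz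
    have h2 := hbmax' _ (interior_subset h1)
    have h3 : det2 t.1 (((0 : ℂ), z) + r • ((⟨-t.1.im, t.1.re⟩ : ℂ), (0 : ℝ))).1 =
        r * (t.1.re ^ 2 + t.1.im ^ 2) := by
      simp [det2]
      ring
    rw [h3] at h2
    have h4 : 0 < t.1.re ^ 2 + t.1.im ^ 2 := by
      by_contra hcon
      push Not at hcon
      apply ht0
      apply Complex.ext
      · simp only [Complex.zero_re]
        nlinarith [sq_nonneg t.1.re, sq_nonneg t.1.im]
      · simp only [Complex.zero_im]
        nlinarith [sq_nonneg t.1.re, sq_nonneg t.1.im]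
    have := mul_pos hr h4
    linarith
  have B2 := B.pre (c := c) (s := 1) hdet.ne' one_ne_zero
  refine cov_of_pre (c := c) (s := 1) hdet.ne' one_ne_zero ?_
  have htc := hflat t htS
  have hbc := hflat b hbS
  generalize hK2 : HT.pre K t.1 b.1 c 1 = L at B2
  have ht' : ((⟨1, 0⟩ : ℂ), (0 : ℝ)) ∈ L := by
    rw [← hK2]
    change chg t.1 b.1 c 1 _ ∈ K
    convert ht using 1
    refine Prod.ext ?_ ?_
    · simp [chg]
    · simp [chg, htc]
  have hb' : ((⟨0, 1⟩ : ℂ), (0 : ℝ)) ∈ L := by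
    rw [← hK2]
    change chg t.1 b.1 c 1 _ ∈ K
    convert hb using 1
    refine Prod.ext ?_ ?_
    · simp [chg]
    · simp [chg, hbc]
  have him : ∀ q ∈ L, q.1.im ≤ 1 := by
    intro q hq
    rw [← hK2] at hq
    have h1 := hbmax' _ hq
    rw [det2_right] at h1
    have h2 : q.1.im * det2 t.1 b.1 ≤ 1 * det2 t.1 b.1 := by linarith
    exact le_of_mul_le_mul_right h2 hdet
  have hL0 : ∀ p ∈ Sil L, p.2 = 0 := by
    intro p hp
    rw [← hK2] at hp
    have h1 := hflat _ (sil_pre hdet.ne' one_ne_zero hp)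
    simp only [chg] at h1
    linarith
  have hbS' : ((⟨0, 1⟩ : ℂ), (0 : ℝ)) ∈ Sil L := by
    refine max_sil (a := 0) (b := 1) (Or.inr one_ne_zero) hb' fun r hr => ?_
    have := him r hr
    simp only [ev]
    linarith
  have h00 : ((0 : ℂ), (0 : ℝ)) ∈ interior L := by
    have h3 := B2.strict _ hbS' _ (B2.sym _ hb') (by
      intro h4
      have h5 := congrArg (fun q : ℂ × ℝ => q.1.im) h4
      simp at h5
      linarith) (1 / 2) (1 / 2) (by norm_num) (by norm_num) (by norm_num)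
    convert h3 using 1
    refine Prod.ext ?_ ?_
    · simp
    · simp
  have heqb : ∀ q ∈ L, q.1.im = 1 → q = (⟨0, 1⟩, 0) := by
    intro q hq h1
    refine B2.uniq (n := (0, 1, 0)) (by simp) hbS' ?_ hq ?_
    · intro r hr
      have := him r hr
      simp only [ev]
      linarith
    · simp [ev, h1]
  -- main step
  have key : ∀ p ∈ Sil L, 0 < p.1.re → p ≠ (⟨0, 1⟩, 0) → (-p.1, p.2) ≠ ((⟨0, 1⟩ : ℂ), (0 : ℝ)) →
      Ill L ((⟨-1, 0⟩ : ℂ), 0) p := by
    intro p hp hx hp1 hp2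
    by_contra hcon
    obtain ⟨n, hn0, hn, hu⟩ := exists_normal B2.conv B2.int hp.1 hcon
    have e0 := ev_lt hn0 hn h00
    have e1 := hn _ hb'
    have e2 := hn _ (B2.sym _ hb')
    have hz := hL0 p hp
    simp only [ev, hz, Complex.zero_re, Complex.zero_im, Complex.neg_re, Complex.neg_im, mul_zero,
      mul_one, add_zero, zero_add, mul_neg, neg_zero] at e0 e1 e2 hu
    have f1 : n.1 * p.1.re ≤ 0 := mul_nonpos_of_nonpos_of_nonneg (by linarith) hx.le
    rcases lt_trichotomy p.1.im 0 with hy | hy | hy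
    · have f2 : n.2.1 < 0 := by
        by_contra h3
        push Not at h3
        have := mul_nonpos_of_nonneg_of_nonpos h3 hy.le
        linarith
      have f3 : -p.1.im < 1 := by
        refine lt_of_le_of_ne ?_ ?_
        · have := him _ (B2.sym _ hp.1)
          simpa using this
        · intro h3
          exact hp2 (heqb _ (B2.sym _ hp.1) (by simpa using h3))
      have f4 := mul_lt_mul_of_pos_left f3 (neg_pos.2 f2)
      linarith
    · rw [hy] at e0
      linarith
    · have f2 : 0 < n.2.1 := by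
        by_contra h3
        push Not at h3
        have := mul_nonpos_of_nonpos_of_nonneg h3 hy.le
        linarith
      have f3 : p.1.im < 1 := lt_of_le_of_ne (him _ hp.1) fun h3 => hp1 (heqb _ hp.1 h3)
      have f4 := mul_lt_mul_of_pos_left f3 f2
      linarith
  have hillb : Ill L ((⟨0, -1⟩ : ℂ), 0) (⟨0, 1⟩, 0) := by
    refine ⟨1, one_pos, ?_⟩
    convert h00 using 1
    refine Prod.ext ?_ ?_
    · apply Complex.ext <;> simp
    · simp
  have e1 : (-(⟨0, -1⟩ : ℂ)) = ⟨0, 1⟩ := by apply Complex.ext <;> simp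
  have e2 : (-(⟨-1, 0⟩ : ℂ)) = ⟨1, 0⟩ := by apply Complex.ext <;> simp
  suffices hall : ∀ p ∈ L, ∃ i : Fin 6, Ill L
      ((![((0 : ℂ), (1 : ℝ)), ((0 : ℂ), (-1 : ℝ)), ((⟨-1, 0⟩ : ℂ), 0), ((⟨1, 0⟩ : ℂ), 0),
      ((⟨0, -1⟩ : ℂ), 0), ((⟨0, 1⟩ : ℂ), 0)] : Fin 6 → ℂ × ℝ) i) p by
    obtain ⟨T, hT, hcov⟩ := cover_of_ill B2.conv B2.comp _ hall
    refine ⟨T, ?_, hcov⟩
    rw [Fintype.card_fin] at hT
    omega
  intro p hp
  by_cases hS : p ∈ Sil L
  · by_cases hp1 : p = (⟨0, 1⟩, 0)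
    · rw [hp1]
      exact ⟨4, hillb⟩
    by_cases hp2 : (-p.1, p.2) = ((⟨0, 1⟩ : ℂ), (0 : ℝ))
    · have h1 := ill_sym B2.sym hillb
      have h2 : p = (-(⟨0, 1⟩ : ℂ), (0 : ℝ)) := by
        have h4 := congrArg Prod.fst hp2
        have h5 := congrArg Prod.snd hp2
        simp only at h4 h5
        refine Prod.ext ?_ h5
        rw [← h4, neg_neg]
      simp only [e1] at h1
      rw [h2]
      exact ⟨5, h1⟩
    rcases lt_trichotomy p.1.re 0 with hx | hx | hx
    · have h1 := key _ (sil_sym B2.sym hS) (by simpa using hx) hp2 (by simpa using hp1)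
      have h2 := ill_sym B2.sym h1
      simp only [e2, neg_neg] at h2
      exact ⟨3, h2⟩
    · exfalso
      have h3 : |p.1.im| < 1 := by
        rw [abs_lt]
        constructor
        · have h4 := him _ (B2.sym _ hp)
          simp only [Complex.neg_im] at h4
          refine lt_of_le_of_ne (by linarith) fun h5 => ?_
          exact hp2 (heqb _ (B2.sym _ hp) (by simp only [Complex.neg_im]; linarith))
        · exact lt_of_le_of_ne (him _ hp) fun h5 => hp1 (heqb _ hp h5)
      obtain ⟨z, hz⟩ := B2.shrink hb' h3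
      apply hS.2 z
      convert hz using 2
      apply Complex.ext
      · simp [hx]
      · simp
    · exact ⟨2, key p hS hx hp1 hp2⟩
  · have h1 : ∃ z : ℝ, (p.1, z) ∈ interior L := by
      by_contra hcon
      push Not at hcon
      exact hS ⟨hp, hcon⟩
    obtain ⟨z, hz⟩ := h1
    rcases lt_trichotomy p.2 z with h2 | h2 | h2
    · refine ⟨0, z - p.2, by linarith, ?_⟩
      convert hz using 1
      refine Prod.ext ?_ ?_
      · simp
      · simp
    · refine ⟨0, Ill.of_interior ?_⟩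
      rw [← h2] at hz
      exact hz
    · refine ⟨1, p.2 - z, by linarith, ?_⟩
      convert hz using 1
      refine Prod.ext ?_ ?_
      · simp
      · simp

theorem cov8 : Cov8 K := by
  have hne : K.Nonempty := B.int.mono interior_subset
  obtain ⟨p, hp, hmax⟩ := B.comp.exists_isMaxOn hne
    (f := fun p : ℂ × ℝ => ev ((1, 0, 0) : ℝ × ℝ × ℝ) p) (by unfold ev; fun_prop)
  have hpS : p ∈ Sil K := max_sil (Or.inl one_ne_zero) hp fun q hq => hmax hq
  have hSc : IsCompact (Sil K) :=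
    B.comp.of_isClosed_subset (isClosed_sil B.comp.isClosed) (fun p hp => hp.1)
  obtain ⟨t, ht, htmax⟩ := hSc.exists_isMaxOn ⟨p, hpS⟩ (f := fun p : ℂ × ℝ => p.2) (by fun_prop)
  obtain ⟨b, hb, hbmin⟩ := hSc.exists_isMinOn ⟨p, hpS⟩ (f := fun p : ℂ × ℝ => p.2) (by fun_prop)
  rcases (show b.2 ≤ t.2 from htmax hb).eq_or_lt with h | h
  · refine B.flat (c := t.2) fun q hq => le_antisymm (htmax hq) ?_
    rw [← h]
    exact hbmin hq
  · exact B.nonflat ht hb (fun q hq => htmax hq) (fun q hq => hbmin hq) h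

end SB

end Pool.Agent.Helper66.HT
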