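import Pool.Graph.R_seed8.W867.Cov3.Basic
import Pool.Agent.Helper66.HT.Alg

/-!
Normals, and the normalised bodies.
-/

set_option autoImplicit false

open Set Topology Filter

namespace Pool.Agent.Helper66.HT

open Pool.Agent.W867.Cov3 (Ill cover_of_ill)

/-- the linear functional with the coefficients `n` -/
def ev (n : ℝ × ℝ × ℝ) (p : ℂ × ℝ) : ℝ := n.1 * p.1.re + n.2.1 * p.1.im + n.2.2 * p.2

theorem ev_add (n : ℝ × ℝ × ℝ) (p q : ℂ × ℝ) : ev n (p + q) = ev n p + ev n q := by
  simp only [ev, Prod.fst_add, Prod.snd_add, Complex.add_re, Complex.add_im]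
  ring

theorem ev_smul (n : ℝ × ℝ × ℝ) (r : ℝ) (p : ℂ × ℝ) : ev n (r • p) = r * ev n p := by
  simp only [ev, Prod.smul_fst, Prod.smul_snd, Complex.smul_re, Complex.smul_im, smul_eq_mul]
  ring

theorem continuous_ev : Continuous fun x : (ℝ × ℝ × ℝ) × (ℂ × ℝ) => ev x.1 x.2 := by
  unfold ev
  fun_prop

theorem ev_repr (f : (ℂ × ℝ) →L[ℝ] ℝ) : ∃ n, ∀ p, f p = ev n p := by
  refine ⟨(f (1, 0), f (Complex.I, 0), f (0, 1)), fun p => ?_⟩
  have h : p = p.1.re • ((1 : ℂ), (0 : ℝ)) + p.1.im • (Complex.I, (0 : ℝ)) +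
      p.2 • ((0 : ℂ), (1 : ℝ)) := by
    refine Prod.ext ?_ ?_
    · apply Complex.ext <;> simp
    · simp
  conv_lhs => rw [h]
  simp only [map_add, map_smul, smul_eq_mul, ev]
  ring

theorem ev_lt {K : Set (ℂ × ℝ)} {n : ℝ × ℝ × ℝ} {c : ℝ} (hn : n ≠ 0) (h : ∀ q ∈ K, ev n q ≤ c)
    {q : ℂ × ℝ} (hq : q ∈ interior K) : ev n q < c := by
  obtain ⟨l, hl, h1⟩ := Ill.of_interior (v := ((⟨n.1, n.2.1⟩ : ℂ), n.2.2)) hq
  have h2 := h _ (interior_subset h1)
  rw [ev_add, ev_smul] at h2
  have h3 : 0 < ev n ((⟨n.1, n.2.1⟩ : ℂ), n.2.2) := by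
    simp only [ev]
    by_contra hcon
    push Not at hcon
    apply hn
    have e1 := mul_self_nonneg n.1
    have e2 := mul_self_nonneg n.2.1
    have e3 := mul_self_nonneg n.2.2
    have f1 : n.1 = 0 := by
      apply mul_self_eq_zero.1
      linarith
    have f2 : n.2.1 = 0 := by
      apply mul_self_eq_zero.1
      linarith
    have f3 : n.2.2 = 0 := by
      apply mul_self_eq_zero.1
      linarith
    exact Prod.ext f1 (Prod.ext f2 f3)
  have h4 := mul_pos hl h3
  linarith

theorem exists_normal {K : Set (ℂ × ℝ)} (hK : Convex ℝ K) (hint : (interior K).Nonempty)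
    {p w : ℂ × ℝ} (hp : p ∈ K) (h : ¬ Ill K w p) :
    ∃ n : ℝ × ℝ × ℝ, n ≠ 0 ∧ (∀ q ∈ K, ev n q ≤ ev n p) ∧ 0 ≤ ev n w := by
  have hconv : Convex ℝ ((fun l : ℝ => p + l • w) '' Ioi 0) := by
    rintro _ ⟨a, ha, rfl⟩ _ ⟨b, hb, rfl⟩ s t hs ht hst
    refine ⟨s * a + t * b, ?_, ?_⟩
    · have ha' : 0 < a := ha
      have hb' : 0 < b := hb
      change 0 < s * a + t * b
      rcases hs.eq_or_lt with h0 | h0
      · have : t = 1 := by linarith
        rw [← h0, this]
        linarith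
      · have := mul_nonneg ht hb'.le
        have := mul_pos h0 ha'
        linarith
    · have h1 : p = (s + t) • p := by rw [hst, one_smul]
      conv_lhs => rw [h1]
      module
  have hdisj : Disjoint (interior K) ((fun l : ℝ => p + l • w) '' Ioi 0) := by
    rw [Set.disjoint_left]
    rintro _ hx ⟨l, hl, rfl⟩
    exact h ⟨l, hl, hx⟩
  obtain ⟨f, u, hf1, hf2⟩ := geometric_hahn_banach_open hK.interior isOpen_interior hconv hdisj
  obtain ⟨n, hn⟩ := ev_repr f
  have hfK : ∀ q ∈ K, f q ≤ u := by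
    intro q hq
    have h1 : q ∈ closure (interior K) := by
      rw [hK.closure_interior_eq_closure_of_nonempty_interior hint]
      exact subset_closure hq
    have h2 : closure (interior K) ⊆ {q | f q ≤ u} :=
      closure_minimal (fun x hx => (hf1 x hx).le) (isClosed_le f.continuous continuous_const)
    exact h2 h1
  have hl : ∀ l : ℝ, 0 < l → u ≤ f p + l * f w := by
    intro l hl
    have := hf2 _ ⟨l, hl, rfl⟩
    simpa using this
  have hp1 := hfK p hp
  have hw : 0 ≤ f w := by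
    have := hl 1 one_pos
    linarith
  have hu : u ≤ f p := by
    refine le_of_forall_pos_le_add fun ε hε => ?_
    have h1 := hl (ε / (f w + 1)) (by positivity)
    have h2 : ε / (f w + 1) * f w ≤ ε := by
      rw [div_mul_eq_mul_div, div_le_iff₀ (by positivity)]
      nlinarith
    linarith
  refine ⟨n, ?_, ?_, ?_⟩
  · rintro rfl
    obtain ⟨a, ha⟩ := hint
    have h1 := hf1 a ha
    have h2 := hl 1 one_pos
    rw [hn] at h1
    rw [hn, hn w] at h2
    simp only [ev, Prod.fst_zero, Prod.snd_zero, zero_mul, add_zero, mul_zero] at h1 h2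
    linarith
  · intro q hq
    rw [← hn, ← hn]
    exact (hfK q hq).trans hu
  · rw [← hn]
    exact hw

/-- the points of `K` over the boundary of its shadow -/
def Sil (K : Set (ℂ × ℝ)) : Set (ℂ × ℝ) := {p | p ∈ K ∧ ∀ z : ℝ, (p.1, z) ∉ interior K}

theorem isClosed_sil {K : Set (ℂ × ℝ)} (hK : IsClosed K) : IsClosed (Sil K) := by
  have h1 : Sil K = K ∩ Prod.fst ⁻¹' (Prod.fst '' interior K)ᶜ := by
    ext p
    constructor
    · rintro ⟨h1, h2⟩
      refine ⟨h1, ?_⟩
      rintro ⟨q, hq, hqp⟩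
      apply h2 q.2
      rw [← hqp]
      exact hq
    · rintro ⟨h1, h2⟩
      exact ⟨h1, fun z hz => h2 ⟨_, hz, rfl⟩⟩
  rw [h1]
  exact hK.inter ((isOpenMap_fst _ isOpen_interior).isClosed_compl.preimage continuous_fst)

/-- normalised bodies -/
structure NB (K : Set (ℂ × ℝ)) (κ l : ℝ) : Prop where
  conv : Convex ℝ K
  comp : IsCompact K
  sym : ∀ p ∈ K, (-p.1, p.2) ∈ K
  ax : ∀ z : ℝ, 0 ≤ z → z ≤ 1 → ((0 : ℂ), z) ∈ interior K
  ht : ((⟨1, 0⟩ : ℂ), (1 : ℝ)) ∈ K
  hb : ((⟨0, 1⟩ : ℂ), (0 : ℝ)) ∈ K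
  uniq : ∀ a b : ℝ, (a ≠ 0 ∨ b ≠ 0) → ∀ p ∈ K, (∀ q ∈ K, ev (a, b, 0) q ≤ ev (a, b, 0) p) →
    ∀ q ∈ K, ev (a, b, 0) q = ev (a, b, 0) p → q = p
  kt : ∀ p ∈ K, p.1.re + κ * p.1.im ≤ 1
  kb : ∀ p ∈ K, l * p.1.re + p.1.im ≤ 1
  sil : ∀ p ∈ Sil K, 0 ≤ p.2 ∧ p.2 ≤ 1
  top : ∀ p ∈ Sil K, p.2 = 1 → 1 ≤ |p.1.re|
  bot : ∀ p ∈ Sil K, p.2 = 0 → 1 ≤ |p.1.im|

namespace NB

variable {K : Set (ℂ × ℝ)} {κ l : ℝ} (B : NB K κ l)

include B

theorem ht' : ((⟨-1, 0⟩ : ℂ), (1 : ℝ)) ∈ K := by
  have := B.sym _ B.ht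
  convert this using 2
  apply Complex.ext <;> simp

theorem hb' : ((⟨0, -1⟩ : ℂ), (0 : ℝ)) ∈ K := by
  have := B.sym _ B.hb
  convert this using 2
  apply Complex.ext <;> simp

theorem hint : (interior K).Nonempty := ⟨_, B.ax 0 le_rfl zero_le_one⟩

/-- equality in `kt` -/
theorem eq_t {p : ℂ × ℝ} (hp : p ∈ K) (h : p.1.re + κ * p.1.im = 1) : p = (⟨1, 0⟩, 1) := by
  refine B.uniq 1 κ (Or.inl one_ne_zero) _ B.ht ?_ p hp ?_
  · intro q hq
    have := B.kt q hq
    simp only [ev]
    linarith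
  · simp only [ev]
    linarith

theorem eq_b {p : ℂ × ℝ} (hp : p ∈ K) (h : l * p.1.re + p.1.im = 1) : p = (⟨0, 1⟩, 0) := by
  refine B.uniq l 1 (Or.inr one_ne_zero) _ B.hb ?_ p hp ?_
  · intro q hq
    have := B.kb q hq
    simp only [ev]
    linarith
  · simp only [ev]
    linarith

theorem κ_gt : -1 < κ := by
  have h1 := B.kt _ B.hb'
  simp only at h1
  by_contra hcon
  push Not at hcon
  have h2 : κ = -1 := by linarith
  have h3 := B.eq_t B.hb' (by simp only; rw [h2]; norm_num)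
  have h4 := congrArg Prod.snd h3
  norm_num at h4

theorem κ_lt : κ < 1 := by
  have h1 := B.kt _ B.hb
  simp only at h1
  by_contra hcon
  push Not at hcon
  have h2 : κ = 1 := by linarith
  have h3 := B.eq_t B.hb (by simp only; rw [h2]; norm_num)
  have h4 := congrArg Prod.snd h3
  norm_num at h4

theorem l_gt : -1 < l := by
  have h1 := B.kb _ B.ht'
  simp only at h1
  by_contra hcon
  push Not at hcon
  have h2 : l = -1 := by linarith
  have h3 := B.eq_b B.ht' (by simp only; rw [h2]; norm_num)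
  have h4 := congrArg Prod.snd h3
  norm_num at h4

/-- the mirror image -/
theorem mirror : NB {p | ((starRingEnd ℂ) p.1, p.2) ∈ K} (-κ) (-l) := by
  let e : (ℂ × ℝ) ≃ₜ (ℂ × ℝ) :=
    { toFun := fun p => ((starRingEnd ℂ) p.1, p.2)
      invFun := fun p => ((starRingEnd ℂ) p.1, p.2)
      left_inv := fun p => by simp
      right_inv := fun p => by simp
      continuous_toFun := by fun_prop
      continuous_invFun := by fun_prop }
  have hpre : {p : ℂ × ℝ | ((starRingEnd ℂ) p.1, p.2) ∈ K} = e ⁻¹' K := rfl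
  have himg : {p : ℂ × ℝ | ((starRingEnd ℂ) p.1, p.2) ∈ K} = e.symm '' K := by
    rw [hpre, Homeomorph.image_symm]
  have hi : ∀ p, p ∈ interior {p : ℂ × ℝ | ((starRingEnd ℂ) p.1, p.2) ∈ K} ↔
      ((starRingEnd ℂ) p.1, p.2) ∈ interior K := by
    intro p
    rw [hpre, ← e.preimage_interior]
    rfl
  have hsil : ∀ p, p ∈ Sil {p : ℂ × ℝ | ((starRingEnd ℂ) p.1, p.2) ∈ K} →
      ((starRingEnd ℂ) p.1, p.2) ∈ Sil K := by
    rintro p ⟨h1, h2⟩
    refine ⟨h1, fun z hz => h2 z ?_⟩
    rw [hi]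
    exact hz
  exact
  { conv := by
      intro p hp q hq a b ha hb hab
      have := B.conv hp hq ha hb hab
      change _ ∈ K at this
      change _ ∈ K
      convert this using 1
      refine Prod.ext ?_ ?_
      · simp
      · simp
    comp := by
      rw [himg]
      exact B.comp.image e.symm.continuous
    sym := by
      intro p hp
      have := B.sym _ hp
      change _ ∈ K at this
      change _ ∈ K
      convert this using 2
      simp
    ax := by
      intro z h0 h1
      rw [hi]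
      simpa using B.ax z h0 h1
    ht := by
      have := B.ht
      change _ ∈ K
      convert this using 2
      apply Complex.ext <;> simp
    hb := by
      have := B.hb'
      change _ ∈ K
      convert this using 2
      apply Complex.ext <;> simp
    uniq := by
      intro a b hab p hp h q hq he
      have h1 := B.uniq a (-b) (by simpa using hab) _ hp (by
        intro r hr
        have h2 := h ((starRingEnd ℂ) r.1, r.2) (by simpa using hr)
        simp only [ev, Complex.conj_re, Complex.conj_im] at h2 ⊢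
        linarith) _ hq (by
        simp only [ev, Complex.conj_re, Complex.conj_im] at he ⊢
        linarith)
      have h2 := congrArg Prod.fst h1
      have h3 := congrArg Prod.snd h1
      simp only at h2 h3
      exact Prod.ext ((starRingEnd ℂ).injective h2) h3
    kt := by
      intro p hp
      have := B.kt _ hp
      simp only [Complex.conj_re, Complex.conj_im] at this
      linarith
    kb := by
      intro p hp
      have := B.kb _ (B.sym _ hp)
      simp only [Complex.conj_re, Complex.conj_im, Complex.neg_re, Complex.neg_im] at this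
      linarith
    sil := fun p hp => by
      have := B.sil _ (hsil p hp)
      exact this
    top := fun p hp h => by
      have := B.top _ (hsil p hp) h
      simpa using this
    bot := fun p hp h => by
      have := B.bot _ (hsil p hp) h
      simpa using this }

/-- `t` is illuminated -/
theorem ill_t {h : ℝ} (h0 : 0 ≤ h) (h1 : h ≤ 1) : Ill K ((⟨-1, 0⟩ : ℂ), -h) (⟨1, 0⟩, 1) := by
  refine ⟨1, one_pos, ?_⟩
  have := B.ax (1 - h) (by linarith) (by linarith)
  convert this using 1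
  refine Prod.ext ?_ ?_
  · apply Complex.ext <;> simp
  · simp [sub_eq_add_neg]

theorem ill_b {h : ℝ} (h0 : 0 ≤ h) (h1 : h ≤ 1) : Ill K ((⟨0, -1⟩ : ℂ), h) (⟨0, 1⟩, 0) := by
  refine ⟨1, one_pos, ?_⟩
  have := B.ax h h0 h1
  convert this using 1
  refine Prod.ext ?_ ?_
  · apply Complex.ext <;> simp
  · simp

end NB

end Pool.Agent.Helper66.HT
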