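import Pool.Agent.Helper66.HT.Fin

/-!
Changes of coordinates.
-/

set_option autoImplicit false

open Set Topology Filter

namespace Pool.Agent.Helper66.HT

open Pool.Agent.W867.Cov3 (Ill cover_of_ill Cov8)

/-- determinant of two complex numbers -/
def det2 (u v : ℂ) : ℝ := u.re * v.im - u.im * v.re

/-- the affine change of coordinates -/
noncomputable def chg (u v : ℂ) (c s : ℝ) (p : ℂ × ℝ) : ℂ × ℝ := (p.1.re • u + p.1.im • v, c + s * p.2)

/-- the body in the new coordinates -/
def pre (K : Set (ℂ × ℝ)) (u v : ℂ) (c s : ℝ) : Set (ℂ × ℝ) := {p | chg u v c s p ∈ K}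

section

variable {u v : ℂ} {c s : ℝ} (huv : det2 u v ≠ 0) (hs : s ≠ 0)

noncomputable def chgL (u v : ℂ) (s : ℝ) : (ℂ × ℝ) →ₗ[ℝ] (ℂ × ℝ) where
  toFun p := (p.1.re • u + p.1.im • v, s * p.2)
  map_add' p q := by
    refine Prod.ext ?_ ?_
    · simp only [Prod.fst_add, Complex.add_re, Complex.add_im, add_smul]
      ring
    · simp only [Prod.snd_add]
      ring
  map_smul' r p := by
    refine Prod.ext ?_ ?_
    · simp only [Prod.smul_fst, Complex.smul_re, Complex.smul_im, smul_eq_mul, RingHom.id_apply,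
        smul_add, mul_smul]
    · simp only [Prod.smul_snd, smul_eq_mul, RingHom.id_apply]
      ring

include huv hs in
theorem chgL_inj : Function.Injective (chgL u v s) := by
  rw [injective_iff_map_eq_zero]
  rintro ⟨⟨x, y⟩, z⟩ h
  have h1 := congrArg (fun q : ℂ × ℝ => q.1.re) h
  have h2 := congrArg (fun q : ℂ × ℝ => q.1.im) h
  have h3 := congrArg (fun q : ℂ × ℝ => q.2) h
  simp [chgL] at h1 h2 h3
  have hx : x * det2 u v = 0 := by
    unfold det2
    linear_combination v.im * h1 - v.re * h2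
  have hy : y * det2 u v = 0 := by
    unfold det2
    linear_combination u.re * h2 - u.im * h1
  have hx0 : x = 0 := (mul_eq_zero.1 hx).resolve_right huv
  have hy0 : y = 0 := (mul_eq_zero.1 hy).resolve_right huv
  have hz0 : z = 0 := by
    rcases h3 with h3 | h3
    · exact absurd h3 hs
    · exact h3
  rw [hx0, hy0, hz0]
  rfl

noncomputable def chgE : (ℂ × ℝ) ≃L[ℝ] (ℂ × ℝ) :=
  (LinearEquiv.ofInjectiveEndo (chgL u v s) (chgL_inj huv hs)).toContinuousLinearEquiv

theorem chgE_apply (p : ℂ × ℝ) : chgE huv hs p = (p.1.re • u + p.1.im • v, s * p.2) := rfl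

theorem chg_eq (p : ℂ × ℝ) : chg u v c s p = ((0 : ℂ), c) + chgE huv hs p := by
  rw [chgE_apply]
  refine Prod.ext ?_ ?_
  · simp [chg]
  · simp [chg]

/-- as a homeomorphism -/
noncomputable def chgH : (ℂ × ℝ) ≃ₜ (ℂ × ℝ) :=
  (chgE huv hs).toHomeomorph.trans (Homeomorph.addLeft ((0 : ℂ), c))

theorem chgH_apply (p : ℂ × ℝ) : chgH (c := c) huv hs p = chg u v c s p := by
  rw [chg_eq huv hs]
  rfl

include huv hs

theorem interior_pre {K : Set (ℂ × ℝ)} {p : ℂ × ℝ} :
    p ∈ interior (pre K u v c s) ↔ chg u v c s p ∈ interior K := by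
  have h1 : pre K u v c s = chgH (c := c) huv hs ⁻¹' K := by
    ext q
    rw [mem_preimage, chgH_apply]
    rfl
  rw [h1, ← Homeomorph.preimage_interior, mem_preimage, chgH_apply]

theorem chg_surj (q : ℂ × ℝ) : ∃ p, chg u v c s p = q := by
  obtain ⟨p, hp⟩ := (chgH (c := c) huv hs).surjective q
  exact ⟨p, by rw [← chgH_apply huv hs]; exact hp⟩

theorem cov_of_pre {K : Set (ℂ × ℝ)} (h : Cov8 (pre K u v c s)) : Cov8 K := by
  refine Cov8.of_translate (-((0 : ℂ), c)) ?_
  refine Cov8.of_image (chgE huv hs).symm ?_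
  convert h using 1
  ext p
  constructor
  · rintro ⟨_, ⟨x, hx, rfl⟩, rfl⟩
    change chg u v c s _ ∈ K
    rw [chg_eq huv hs, ContinuousLinearEquiv.apply_symm_apply, add_neg_cancel_left]
    exact hx
  · intro hp
    refine ⟨chgE huv hs p, ⟨chg u v c s p, hp, ?_⟩, ?_⟩
    · change -((0 : ℂ), c) + chg u v c s p = _
      rw [chg_eq huv hs, neg_add_cancel_left]
    · rw [ContinuousLinearEquiv.symm_apply_apply]

theorem sil_pre {K : Set (ℂ × ℝ)} {p : ℂ × ℝ} (hp : p ∈ Sil (pre K u v c s)) :
    chg u v c s p ∈ Sil K := by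
  refine ⟨hp.1, fun z hz => hp.2 ((z - c) / s) ?_⟩
  rw [interior_pre huv hs]
  convert hz using 1
  refine Prod.ext rfl ?_
  simp only [chg]
  field_simp
  ring

end

theorem chg_combo (u v : ℂ) (c s : ℝ) (p q : ℂ × ℝ) {a b : ℝ} (hab : a + b = 1) :
    chg u v c s (a • p + b • q) = a • chg u v c s p + b • chg u v c s q := by
  refine Prod.ext ?_ ?_
  · simp only [chg, Prod.fst_add, Prod.smul_fst, Complex.add_re, Complex.add_im, Complex.smul_re,
      Complex.smul_im, smul_eq_mul]
    module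
  · simp only [chg, Prod.snd_add, Prod.smul_snd, smul_eq_mul]
    have : c = (a + b) * c := by rw [hab, one_mul]
    linear_combination this

theorem chg_neg (u v : ℂ) (c s : ℝ) (p : ℂ × ℝ) :
    chg u v c s (-p.1, p.2) = (-(chg u v c s p).1, (chg u v c s p).2) := by
  refine Prod.ext ?_ rfl
  simp only [chg, Complex.neg_re, Complex.neg_im]
  module

/-- bodies with a half-turn symmetry which are strictly convex along the silhouette -/
structure SB (K : Set (ℂ × ℝ)) : Prop where
  conv : Convex ℝ K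
  strict : ∀ p ∈ Sil K, ∀ q ∈ K, p ≠ q → ∀ a b : ℝ, 0 < a → 0 < b → a + b = 1 →
    a • p + b • q ∈ interior K
  comp : IsCompact K
  int : (interior K).Nonempty
  sym : ∀ p ∈ K, (-p.1, p.2) ∈ K

theorem SB.pre {K : Set (ℂ × ℝ)} (B : SB K) {u v : ℂ} {c s : ℝ} (huv : det2 u v ≠ 0)
    (hs : s ≠ 0) : SB (pre K u v c s) := by
  have hinj : Function.Injective (chg u v c s) := by
    intro p q h
    apply (chgH (c := c) huv hs).injective
    rw [chgH_apply, chgH_apply, h]
  exact
  { conv := by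
      intro p hp q hq a b ha hb hab
      change chg u v c s _ ∈ K
      rw [chg_combo u v c s p q hab]
      exact B.conv hp hq ha hb hab
    strict := by
      intro p hp q hq hpq a b ha hb hab
      rw [interior_pre huv hs, chg_combo u v c s p q hab]
      exact B.strict _ (sil_pre huv hs hp) _ hq (fun h => hpq (hinj h)) a b ha hb hab
    comp := by
      have h1 : HT.pre K u v c s = (chgH (c := c) huv hs).symm '' K := by
        rw [Homeomorph.image_symm]
        ext q
        rw [mem_preimage, chgH_apply]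
        rfl
      rw [h1]
      exact B.comp.image (Homeomorph.continuous _)
    int := by
      obtain ⟨q, hq⟩ := B.int
      obtain ⟨p, rfl⟩ := chg_surj (c := c) huv hs q
      exact ⟨p, (interior_pre huv hs).2 hq⟩
    sym := by
      intro p hp
      change chg u v c s _ ∈ K
      rw [chg_neg]
      exact B.sym _ hp }

namespace SB

variable {K : Set (ℂ × ℝ)} (B : SB K)

include B

theorem axis : ∃ z : ℝ, ((0 : ℂ), z) ∈ interior K := by
  obtain ⟨q, hq⟩ := B.int
  have h1 := interior_sym B.sym hq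
  have h2 := B.conv.interior hq h1 (show (0 : ℝ) ≤ 1 / 2 by norm_num)
    (show (0 : ℝ) ≤ 1 / 2 by norm_num) (by norm_num)
  refine ⟨q.2, ?_⟩
  convert h2 using 1
  refine Prod.ext ?_ ?_
  · simp
  · simp only [Prod.snd_add, Prod.smul_snd, smul_eq_mul]
    ring

/-- two different points of the same fibre: the fibre meets the interior -/
theorem fibre {p q : ℂ × ℝ} (hp : p ∈ Sil K) (hq : q ∈ K) (h : p.1 = q.1) (hne : p ≠ q) :
    ∃ z, (p.1, z) ∈ interior K := by
  have h2 := B.strict p hp q hq hne (1 / 2) (1 / 2) (by norm_num) (by norm_num) (by norm_num)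
  refine ⟨(p.2 + q.2) / 2, ?_⟩
  convert h2 using 1
  refine Prod.ext ?_ ?_
  · simp only [Prod.fst_add, Prod.smul_fst]
    rw [← h, ← add_smul]
    norm_num
  · simp only [Prod.snd_add, Prod.smul_snd, smul_eq_mul]
    ring

theorem uniq {n : ℝ × ℝ × ℝ} (hn : n ≠ 0) {p : ℂ × ℝ} (hp : p ∈ Sil K)
    (h : ∀ q ∈ K, ev n q ≤ ev n p) {q : ℂ × ℝ} (hq : q ∈ K) (he : ev n q = ev n p) : q = p := by
  by_contra hne
  have h2 := B.strict p hp q hq (Ne.symm hne) (1 / 2) (1 / 2) (by norm_num) (by norm_num)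
    (by norm_num)
  have h3 := ev_lt hn h h2
  rw [ev_add, ev_smul, ev_smul, he] at h3
  linarith

/-- shrinking a point of `K` towards the axis -/
theorem shrink {p : ℂ × ℝ} (hp : p ∈ K) {r : ℝ} (hr : |r| < 1) : ∃ z, (r • p.1, z) ∈ interior K := by
  obtain ⟨z, hz⟩ := B.axis
  have key : ∀ q ∈ K, ∀ r : ℝ, 0 ≤ r → r < 1 → ∃ z, (r • q.1, z) ∈ interior K := by
    intro q hq r h0 h1
    have h2 := B.conv.combo_self_interior_mem_interior hq hz h0 (show 0 < 1 - r by linarith)
      (by ring)
    refine ⟨r * q.2 + (1 - r) * z, ?_⟩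
    convert h2 using 1
    refine Prod.ext ?_ ?_
    · simp
    · simp
  rw [abs_lt] at hr
  rcases le_total 0 r with h0 | h0
  · exact key p hp r h0 hr.2
  · obtain ⟨z', hz'⟩ := key _ (B.sym p hp) (-r) (by linarith) (by linarith)
    refine ⟨z', ?_⟩
    convert hz' using 2
    simp

theorem sil_ne {p : ℂ × ℝ} (hp : p ∈ Sil K) : p.1 ≠ 0 := by
  intro h
  obtain ⟨z, hz⟩ := B.axis
  apply hp.2 z
  rw [h]
  exact hz

/-- points of the silhouette on the same line through the axis -/
theorem det_zero {t b : ℂ × ℝ} (ht : t ∈ Sil K) (hb : b ∈ Sil K) (h : det2 t.1 b.1 = 0) :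
    t.2 = b.2 := by
  have ht0 := B.sil_ne ht
  have hb0 := B.sil_ne hb
  obtain ⟨r, hr⟩ : ∃ r : ℝ, b.1 = r • t.1 := by
    unfold det2 at h
    by_cases hre : t.1.re = 0
    · have him : t.1.im ≠ 0 := fun h1 => ht0 (Complex.ext hre h1)
      have h2 : b.1.re = 0 := by
        rw [hre, zero_mul, zero_sub, neg_eq_zero] at h
        exact (mul_eq_zero.1 h).resolve_left him
      refine ⟨b.1.im / t.1.im, ?_⟩
      apply Complex.ext
      · simp [hre, h2]
      · simp only [Complex.smul_im, smul_eq_mul]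
        field_simp
    · refine ⟨b.1.re / t.1.re, ?_⟩
      apply Complex.ext
      · simp only [Complex.smul_re, smul_eq_mul]
        field_simp
      · simp only [Complex.smul_im, smul_eq_mul]
        field_simp
        linarith
  have hr0 : r ≠ 0 := by
    rintro rfl
    rw [zero_smul] at hr
    exact hb0 hr
  have h1 : ¬ |r| < 1 := by
    intro h1
    obtain ⟨z, hz⟩ := B.shrink ht.1 h1
    apply hb.2 z
    rw [hr]
    exact hz
  have h2 : ¬ 1 < |r| := by
    intro h2
    obtain ⟨z, hz⟩ := B.shrink hb.1 (r := r⁻¹) (by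
      rw [abs_inv]
      exact inv_lt_one_of_one_lt₀ h2)
    apply ht.2 z
    rw [hr, smul_smul, inv_mul_cancel₀ hr0, one_smul] at hz
    exact hz
  have h3 : |r| = 1 := le_antisymm (not_lt.1 h2) (not_lt.1 h1)
  rcases (abs_eq zero_le_one).1 h3 with h4 | h4
  · rw [h4, one_smul] at hr
    by_contra hne
    obtain ⟨z, hz⟩ := B.fibre ht hb.1 hr.symm (fun h5 => hne (congrArg Prod.snd h5))
    exact ht.2 z hz
  · rw [h4, neg_one_smul] at hr
    by_contra hne
    obtain ⟨z, hz⟩ := B.fibre ht (B.sym _ hb.1) (by simp [hr])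
      (fun h5 => hne (congrArg Prod.snd h5 :))
    exact ht.2 z hz

theorem le_of_interior {f : ℂ × ℝ → ℝ} (hf : Continuous f) {c : ℝ}
    (h : ∀ q ∈ interior K, f q ≤ c) : ∀ q ∈ K, f q ≤ c := by
  intro q hq
  have h1 : q ∈ closure (interior K) := by
    rw [B.conv.closure_interior_eq_closure_of_nonempty_interior B.int]
    exact subset_closure hq
  exact closure_minimal (fun x hx => h x hx) (isClosed_le hf continuous_const) h1

/-- a supporting line of the shadow -/
theorem support {t : ℂ × ℝ} (ht : t ∈ Sil K) : ∃ a b : ℝ, a * t.1.re + b * t.1.im = 1 ∧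
    ∀ q ∈ K, a * q.1.re + b * q.1.im ≤ 1 := by
  have hU : IsOpen (Prod.fst '' interior K) := isOpenMap_fst _ isOpen_interior
  have hUc : Convex ℝ (Prod.fst '' interior K) :=
    B.conv.interior.is_linear_image (f := (Prod.fst : ℂ × ℝ → ℂ)) (LinearMap.fst ℝ ℂ ℝ).isLinear
  have htU : t.1 ∉ Prod.fst '' interior K := by
    rintro ⟨q, hq, hqt⟩
    apply ht.2 q.2
    rw [← hqt]
    exact hq
  obtain ⟨f, hf⟩ := geometric_hahn_banach_open_point hUc hU htU
  have hfr : ∀ z : ℂ, f z = f 1 * z.re + f Complex.I * z.im := by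
    intro z
    have h : z = z.re • (1 : ℂ) + z.im • Complex.I := by
      apply Complex.ext <;> simp
    conv_lhs => rw [h]
    simp only [map_add, map_smul, smul_eq_mul]
    ring
  have hft : 0 < f t.1 := by
    obtain ⟨z, hz⟩ := B.axis
    have := hf 0 ⟨_, hz, rfl⟩
    rwa [map_zero] at this
  refine ⟨f 1 / f t.1, f Complex.I / f t.1, ?_, ?_⟩
  · have := hfr t.1
    field_simp
    linarith
  · refine B.le_of_interior (f := fun q => f 1 / f t.1 * q.1.re + f Complex.I / f t.1 * q.1.im)
      (by fun_prop) ?_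
    intro q hq
    have h1 := hf q.1 ⟨q, hq, rfl⟩
    rw [hfr q.1] at h1
    have : f 1 / f t.1 * q.1.re + f Complex.I / f t.1 * q.1.im =
        (f 1 * q.1.re + f Complex.I * q.1.im) / f t.1 := by
      field_simp
    simp only [this]
    rw [div_le_one hft]
    exact h1.le

end SB

end Pool.Agent.Helper66.HT
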