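import Pool.Agent.Helper66.HT.Core

/-!
The selection lemma: one of the two arcs of the silhouette is illuminated by two directions.
-/

set_option autoImplicit false

open Set Topology Filter

namespace Pool.Agent.Helper66.HT

open Pool.Agent.W867.Cov3 (Ill cover_of_ill)

/-- the mirror image -/
def mir (K : Set (ℂ × ℝ)) : Set (ℂ × ℝ) := {p | ((starRingEnd ℂ) p.1, p.2) ∈ K}

theorem not_ill {K : Set (ℂ × ℝ)} {n : ℝ × ℝ × ℝ} {p w : ℂ × ℝ} (hn0 : n ≠ 0)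
    (hn : ∀ q ∈ K, ev n q ≤ ev n p) (hu : 0 ≤ ev n w) : ¬ Ill K w p := by
  rintro ⟨r, hr, h⟩
  have := ev_lt hn0 hn h
  rw [ev_add, ev_smul] at this
  have := mul_nonneg hr.le hu
  linarith

theorem exists_unit_normal {K : Set (ℂ × ℝ)} (hK : Convex ℝ K) (hint : (interior K).Nonempty)
    {p w : ℂ × ℝ} (hp : p ∈ K) (h : ¬ Ill K w p) :
    ∃ n : ℝ × ℝ × ℝ, ‖n‖ = 1 ∧ (∀ q ∈ K, ev n q ≤ ev n p) ∧ 0 ≤ ev n w := by
  obtain ⟨n, hn0, hn, hu⟩ := exists_normal hK hint hp h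
  have hpos := norm_pos_iff.2 hn0
  have hs : ∀ q, ev (‖n‖⁻¹ • n) q = ‖n‖⁻¹ * ev n q := by
    intro q
    simp only [ev, Prod.smul_fst, Prod.smul_snd, smul_eq_mul]
    ring
  refine ⟨‖n‖⁻¹ • n, ?_, ?_, ?_⟩
  · rw [norm_smul, norm_inv, norm_norm, inv_mul_cancel₀ hpos.ne']
  · intro q hq
    rw [hs, hs]
    exact mul_le_mul_of_nonneg_left (hn q hq) (by positivity)
  · rw [hs]
    positivity

/-- the points which are not illuminated, with normals -/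
def Wit (K : Set (ℂ × ℝ)) (s : ℝ) : Set (ℝ × (ℂ × ℝ) × (ℝ × ℝ × ℝ) × (ℝ × ℝ × ℝ)) :=
  (Icc 0 1 ×ˢ ((Sil K ∩ {p | 0 ≤ p.1.re} ∩ {p | 0 ≤ p.1.im}) ×ˢ
    (Metric.sphere 0 1 ×ˢ Metric.sphere 0 1))) ∩
  ({x | ∀ q ∈ K, ev x.2.2.1 q ≤ ev x.2.2.1 x.2.1} ∩
    ({x | ∀ q ∈ K, ev x.2.2.2 q ≤ ev x.2.2.2 x.2.1} ∩
    ({x | 0 ≤ ev x.2.2.1 ((⟨-1, 0⟩ : ℂ), -x.1)} ∩ ({x | 0 ≤ ev x.2.2.2 ((⟨0, -1⟩ : ℂ), 1 - x.1)} ∩
      {x | 0 ≤ s * x.2.2.2.2.2}))))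

theorem isCompact_wit {K : Set (ℂ × ℝ)} (hc : IsCompact K) (s : ℝ) : IsCompact (Wit K s) := by
  have hS : IsCompact (Sil K ∩ {p : ℂ × ℝ | 0 ≤ p.1.re} ∩ {p | 0 ≤ p.1.im}) := by
    refine hc.of_isClosed_subset ?_ (fun p hp => hp.1.1.1)
    refine ((isClosed_sil hc.isClosed).inter ?_).inter ?_
    · exact isClosed_le continuous_const (by fun_prop)
    · exact isClosed_le continuous_const (by fun_prop)
  refine (isCompact_Icc.prod (hS.prod ((isCompact_sphere _ _).prod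
    (isCompact_sphere _ _)))).inter_right ?_
  refine IsClosed.inter ?_ (IsClosed.inter ?_ (IsClosed.inter ?_ (IsClosed.inter ?_ ?_)))
  · rw [show {x : ℝ × (ℂ × ℝ) × (ℝ × ℝ × ℝ) × (ℝ × ℝ × ℝ) |
      ∀ q ∈ K, ev x.2.2.1 q ≤ ev x.2.2.1 x.2.1} = ⋂ q ∈ K, {x | ev x.2.2.1 q ≤ ev x.2.2.1 x.2.1} by
      ext x; simp]
    refine isClosed_biInter fun q _ => ?_
    refine isClosed_le ?_ ?_
    · unfold ev
      fun_prop
    · unfold ev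
      fun_prop
  · rw [show {x : ℝ × (ℂ × ℝ) × (ℝ × ℝ × ℝ) × (ℝ × ℝ × ℝ) |
      ∀ q ∈ K, ev x.2.2.2 q ≤ ev x.2.2.2 x.2.1} = ⋂ q ∈ K, {x | ev x.2.2.2 q ≤ ev x.2.2.2 x.2.1} by
      ext x; simp]
    refine isClosed_biInter fun q _ => ?_
    refine isClosed_le ?_ ?_
    · unfold ev
      fun_prop
    · unfold ev
      fun_prop
  · refine isClosed_le continuous_const ?_
    unfold ev
    fun_prop
  · refine isClosed_le continuous_const ?_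
    unfold ev
    fun_prop
  · exact isClosed_le continuous_const (by fun_prop)

theorem norm_ne {n : ℝ × ℝ × ℝ} (h : ‖n‖ = 1) : n ≠ 0 := by
  rintro rfl
  simp at h

namespace NB

variable {K : Set (ℂ × ℝ)} {κ l : ℝ} (B : NB K κ l)

include B

/-- points which are not illuminated by the two directions -/
theorem bad {p : ℂ × ℝ} (hp : p ∈ Sil K) (hx : 0 ≤ p.1.re) (hy : 0 ≤ p.1.im)
    {n m : ℝ × ℝ × ℝ} {h h' : ℝ} (h0 : 0 ≤ h) (h1 : h ≤ 1) (h0' : 0 ≤ h') (h1' : h' ≤ 1)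
    (hn0 : n ≠ 0) (hm0 : m ≠ 0)
    (hn : ∀ q ∈ K, ev n q ≤ ev n p) (hm : ∀ q ∈ K, ev m q ≤ ev m p)
    (hnu : 0 ≤ ev n ((⟨-1, 0⟩ : ℂ), -h)) (hmu : 0 ≤ ev m ((⟨0, -1⟩ : ℂ), h')) :
    Pos p ∧ p ≠ (⟨1, 0⟩, 1) ∧ p ≠ (⟨0, 1⟩, 0) := by
  have hpt : p ≠ (⟨1, 0⟩, 1) := by
    intro h2
    refine not_ill hn0 hn hnu ?_
    rw [h2]
    exact B.ill_t h0 h1
  have hpb : p ≠ (⟨0, 1⟩, 0) := by
    intro h2
    refine not_ill hm0 hm hmu ?_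
    rw [h2]
    exact B.ill_b h0' h1'
  exact ⟨B.pos hp hx hy hpt hpb, hpt, hpb⟩

theorem x_lt (hκ : 0 ≤ κ) {p : ℂ × ℝ} (hp : p ∈ K) (P : Pos p) (hpt : p ≠ (⟨1, 0⟩, 1)) :
    p.1.re < 1 := by
  have h1 := B.kt _ hp
  have h2 := mul_nonneg hκ P.y.le
  by_contra hcon
  push Not at hcon
  exact hpt (B.eq_t hp (by linarith))

theorem notB (hκ : 0 ≤ κ) {p : ℂ × ℝ} (hp : p ∈ Sil K) (hx : 0 ≤ p.1.re) (hy : 0 ≤ p.1.im)
    {n m : ℝ × ℝ × ℝ} (hn0 : n ≠ 0) (hm0 : m ≠ 0)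
    (hn : ∀ q ∈ K, ev n q ≤ ev n p) (hm : ∀ q ∈ K, ev m q ≤ ev m p)
    (hnu : 0 ≤ ev n ((⟨-1, 0⟩ : ℂ), -0)) (hmu : 0 ≤ ev m ((⟨0, -1⟩ : ℂ), 1 - 0))
    (hs : m.2.2 ≤ 0) : False := by
  obtain ⟨P, hpt, hpb⟩ := B.bad hp hx hy le_rfl zero_le_one (by norm_num) (by norm_num)
    hn0 hm0 hn hm hnu hmu
  have hx1 := B.x_lt hκ hp.1 P hpt
  have hs' : m.2.2 < 0 := by
    refine lt_of_le_of_ne hs fun h0 => ?_
    have := B.vert2 hm0 hp.1 hm h0 hmu hx hy hpt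
    linarith
  have e1 := B.S4 P hx1.le (lo2_of hm hs' hmu)
  have z0 := P.z0
  rcases B.type1 hn0 hp.1 hn hnu hx hy hpb with h2 | h2 | h2
  · have e2 := B.S3 P (by linarith) h2
    linarith
  · have e2 := B.S1 P (by linarith) h2
    have e3 := B.bot p hp (by linarith)
    rw [abs_of_nonneg hy] at e3
    linarith
  · linarith

theorem notD (hκ : 0 ≤ κ) {p : ℂ × ℝ} (hp : p ∈ Sil K) (hx : 0 ≤ p.1.re) (hy : 0 ≤ p.1.im)
    {n m : ℝ × ℝ × ℝ} (hn0 : n ≠ 0) (hm0 : m ≠ 0)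
    (hn : ∀ q ∈ K, ev n q ≤ ev n p) (hm : ∀ q ∈ K, ev m q ≤ ev m p)
    (hnu : 0 ≤ ev n ((⟨-1, 0⟩ : ℂ), -1)) (hmu : 0 ≤ ev m ((⟨0, -1⟩ : ℂ), 1 - 1))
    (hs : 0 ≤ m.2.2) : False := by
  obtain ⟨P, hpt, hpb⟩ := B.bad hp hx hy zero_le_one le_rfl (by norm_num) (by norm_num)
    hn0 hm0 hn hm hnu hmu
  have hx1 := B.x_lt hκ hp.1 P hpt
  have hs' : 0 < m.2.2 := by
    refine lt_of_le_of_ne hs fun h0 => ?_
    have := B.vert2 hm0 hp.1 hm h0.symm hmu hx hy hpt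
    linarith
  have e1 := B.S2 P hx1.le (up2_of hm hs' hmu)
  have z1 := P.z1
  have e3 := B.top p hp (by linarith)
  rw [abs_of_nonneg hx] at e3
  linarith

theorem select (hκ : 0 ≤ κ) :
    (∃ h : ℝ, 0 ≤ h ∧ h ≤ 1 ∧ ∀ p ∈ Sil K, 0 ≤ p.1.re → 0 ≤ p.1.im →
      Ill K ((⟨-1, 0⟩ : ℂ), -h) p ∨ Ill K ((⟨0, -1⟩ : ℂ), 1 - h) p) ∨
    (∃ h : ℝ, 0 ≤ h ∧ h ≤ 1 ∧ ∀ p ∈ Sil (mir K), 0 ≤ p.1.re → 0 ≤ p.1.im →
      Ill (mir K) ((⟨-1, 0⟩ : ℂ), -(1 - h)) p ∨ Ill (mir K) ((⟨0, -1⟩ : ℂ), h) p) := by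
  by_contra hcon
  push Not at hcon
  obtain ⟨hE, hF⟩ := hcon
  have B' : NB (mir K) (-κ) (-l) := B.mirror
  -- the witnesses
  have hW : ∀ h : ℝ, 0 ≤ h → h ≤ 1 → ∃ p n m, (h, p, n, m) ∈ Wit K 1 ∨ (h, p, n, m) ∈ Wit K (-1) := by
    intro h h0 h1
    obtain ⟨p, hp, hx, hy, hi1, hi2⟩ := hE h h0 h1
    obtain ⟨n, hn1, hn, hnu⟩ := exists_unit_normal B.conv B.hint hp.1 hi1
    obtain ⟨m, hm1, hm, hmu⟩ := exists_unit_normal B.conv B.hint hp.1 hi2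
    refine ⟨p, n, m, ?_⟩
    rcases le_total 0 m.2.2 with h2 | h2
    · left
      refine ⟨⟨⟨h0, h1⟩, ⟨⟨hp, hx⟩, hy⟩, by simpa using hn1, by simpa using hm1⟩, hn, hm, hnu, hmu, ?_⟩
      change 0 ≤ 1 * m.2.2
      linarith
    · right
      refine ⟨⟨⟨h0, h1⟩, ⟨⟨hp, hx⟩, hy⟩, by simpa using hn1, by simpa using hm1⟩, hn, hm, hnu, hmu, ?_⟩
      change 0 ≤ -1 * m.2.2
      linarith
  have hcl : ∀ s, IsClosed (Prod.fst '' Wit K s) := fun s =>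
    ((isCompact_wit B.comp s).image continuous_fst).isClosed
  have h0B : (0 : ℝ) ∉ Prod.fst '' Wit K (-1) := by
    rintro ⟨⟨h, p, n, m⟩, ⟨⟨-, ⟨⟨hp, hx⟩, hy⟩, hn1, hm1⟩, hn, hm, hnu, hmu, hs⟩, rfl⟩
    refine B.notB hκ hp hx hy (norm_ne (by simpa using hn1)) (norm_ne (by simpa using hm1))
      hn hm hnu hmu ?_
    change 0 ≤ -1 * m.2.2 at hs
    linarith
  have h1D : (1 : ℝ) ∉ Prod.fst '' Wit K 1 := by
    rintro ⟨⟨h, p, n, m⟩, ⟨⟨-, ⟨⟨hp, hx⟩, hy⟩, hn1, hm1⟩, hn, hm, hnu, hmu, hs⟩, rfl⟩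
    refine B.notD hκ hp hx hy (norm_ne (by simpa using hn1)) (norm_ne (by simpa using hm1))
      hn hm hnu hmu ?_
    change 0 ≤ 1 * m.2.2 at hs
    linarith
  have hsub : Icc (0 : ℝ) 1 ⊆ Prod.fst '' Wit K 1 ∪ Prod.fst '' Wit K (-1) := by
    rintro h ⟨h0, h1⟩
    obtain ⟨p, n, m, h2 | h2⟩ := hW h h0 h1
    · exact Or.inl ⟨_, h2, rfl⟩
    · exact Or.inr ⟨_, h2, rfl⟩
  have h0D : (0 : ℝ) ∈ Prod.fst '' Wit K 1 := by
    rcases hsub ⟨le_rfl, zero_le_one⟩ with h2 | h2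
    · exact h2
    · exact absurd h2 h0B
  have h1B : (1 : ℝ) ∈ Prod.fst '' Wit K (-1) := by
    rcases hsub ⟨zero_le_one, le_rfl⟩ with h2 | h2
    · exact absurd h2 h1D
    · exact h2
  obtain ⟨h, ⟨h0, h1⟩, hD, hB⟩ := isPreconnected_closed_iff.1
    (isPreconnected_Icc (a := (0 : ℝ)) (b := 1)) _ _ (hcl 1) (hcl (-1)) hsub
    ⟨0, ⟨le_rfl, zero_le_one⟩, h0D⟩ ⟨1, ⟨zero_le_one, le_rfl⟩, h1B⟩
  have hh0 : 0 < h := lt_of_le_of_ne h0 (by rintro rfl; exact h0B hB)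
  have hh1 : h < 1 := lt_of_le_of_ne h1 (by rintro rfl; exact h1D hD)
  obtain ⟨⟨_, v, n, m⟩, ⟨⟨-, ⟨⟨hv, hvx⟩, hvy⟩, hn1, hm1⟩, hn, hm, hnu, hmu, hs⟩, rfl⟩ := hD
  obtain ⟨⟨h, w, n', m'⟩, ⟨⟨-, ⟨⟨hw, hwx⟩, hwy⟩, hn1', hm1'⟩, hn', hm', hnu', hmu', hs'⟩, hhh⟩ := hB
  simp only at hhh
  subst hhh
  simp only [mem_setOf_eq] at hvx hvy hwx hwy hn hm hnu hmu hn' hm' hnu' hmu' hs hs' hv hw hh0 hh1 h0 h1 hn1 hm1 hn1' hm1'
  replace hn1 := norm_ne (by simpa using hn1)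
  replace hm1 := norm_ne (by simpa using hm1)
  replace hn1' := norm_ne (by simpa using hn1')
  replace hm1' := norm_ne (by simpa using hm1')
  obtain ⟨V, hvt, hvb⟩ := B.bad hv hvx hvy h0 h1 (by linarith) (by linarith) hn1 hm1 hn hm hnu hmu
  obtain ⟨W, hwt, hwb⟩ := B.bad hw hwx hwy h0 h1 (by linarith) (by linarith) hn1' hm1' hn' hm'
    hnu' hmu'
  have hv1 := B.x_lt hκ hv.1 V hvt
  have hw1 := B.x_lt hκ hw.1 W hwt
  have hv2 : Up2 K v (1 - h) := by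
    refine up2_of hm (lt_of_le_of_ne (by linarith) fun h2 => ?_) hmu
    have := B.vert2 hm1 hv.1 hm h2.symm hmu hvx hvy hvt
    linarith
  have hw2 : Lo2 K w (1 - h) := by
    refine lo2_of hm' (lt_of_le_of_ne (by linarith) fun h2 => ?_) hmu'
    have := B.vert2 hm1' hw.1 hm' h2 hmu' hwx hwy hwt
    linarith
  obtain ⟨u, hu, hux, huy, hi1, hi2⟩ := hF h h0 h1
  obtain ⟨a, ha0, ha, hau⟩ := exists_normal B'.conv B'.hint hu.1 hi1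
  obtain ⟨c, hc0, hc, hcu⟩ := exists_normal B'.conv B'.hint hu.1 hi2
  obtain ⟨U, hut, hub⟩ := B'.bad hu hux huy (by linarith) (by linarith) h0 h1 ha0 hc0 ha hc hau hcu
  have R : Mir K (mir K) :=
    { down := fun p hp => by
        change _ ∈ K
        convert hp using 1
        refine Prod.ext ?_ rfl
        apply Complex.ext <;> simp
      left := fun p hp => by
        change _ ∈ K
        convert B.sym p hp using 2
        apply Complex.ext <;> simp }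
  have R' : Mir (mir K) K :=
    { down := fun p hp => by
        have h3 : ((starRingEnd ℂ) p.1, p.2) ∈ K := hp
        convert h3 using 2
        all_goals
          apply Complex.ext <;> simp
      left := fun p hp => by
        have h3 : ((starRingEnd ℂ) p.1, p.2) ∈ K := hp
        convert B.sym _ h3 using 2
        apply Complex.ext <;> simp }
  have hYY : ∀ p ∈ K, Pos p → 1 < u.1.im → p.1.im ≤ 1 := by
    intro p hp P h2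
    by_contra hcon
    push Not at hcon
    have e1 := B.kb _ hp
    have e2 := B'.kb _ hu.1
    have e3 : l < 0 := by
      by_contra h3
      push Not at h3
      have := mul_nonneg h3 P.x.le
      linarith
    have e4 : 0 < -l * u.1.re := mul_pos (by linarith) U.x
    linarith
  exact core B B' R R' hh0 (show 0 < 1 - h by linarith) (by ring) hv.1 V hv1 hv2
    (B.type1 hn1 hv.1 hn hnu hvx hvy hvb) hw.1 W hw1 hw2
    (B.type1 hn1' hw.1 hn' hnu' hwx hwy hwb) hu.1 U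
    (B'.type1 ha0 hu.1 ha hau hux huy hub) (B'.type2 hc0 hu.1 hc hcu hux huy hut)
    (hYY v hv.1 V) (hYY w hw.1 W)

end NB

end Pool.Agent.Helper66.HT
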