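import Pool.Agent.Helper66.HT.Nor

/-!
The types of the supporting planes at points which are not illuminated.
-/

set_option autoImplicit false

open Set Topology Filter

namespace Pool.Agent.Helper66.HT

open Pool.Agent.W867.Cov3 (Ill cover_of_ill)

/-- upper supporting plane at `p` -/
def Up (K : Set (ℂ × ℝ)) (p : ℂ × ℝ) (α m : ℝ) : Prop :=
  ∀ q ∈ K, q.2 ≤ p.2 + α * (q.1.re - p.1.re) + m * (q.1.im - p.1.im)

/-- lower supporting plane at `p` -/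
def Lo (K : Set (ℂ × ℝ)) (p : ℂ × ℝ) (a c : ℝ) : Prop :=
  ∀ q ∈ K, p.2 + a * (q.1.re - p.1.re) + c * (q.1.im - p.1.im) ≤ q.2

def Up1 (K : Set (ℂ × ℝ)) (p : ℂ × ℝ) (h : ℝ) : Prop := ∃ α m, h ≤ α ∧ Up K p α m
def Lo1 (K : Set (ℂ × ℝ)) (p : ℂ × ℝ) (h : ℝ) : Prop := ∃ a c, a ≤ h ∧ Lo K p a c
def Up2 (K : Set (ℂ × ℝ)) (p : ℂ × ℝ) (h : ℝ) : Prop := ∃ n β, β ≤ h ∧ Up K p n (-β)
def Lo2 (K : Set (ℂ × ℝ)) (p : ℂ × ℝ) (h : ℝ) : Prop := ∃ a c, c ≤ -h ∧ Lo K p a c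

/-- the position of a point of the open arc -/
structure Pos (p : ℂ × ℝ) : Prop where
  x : 0 < p.1.re
  y : 0 < p.1.im
  xy : p.1.im < 1 + p.1.re
  yx : p.1.re < 1 + p.1.im
  z0 : 0 ≤ p.2
  z1 : p.2 ≤ 1

namespace NB

variable {K : Set (ℂ × ℝ)} {κ l : ℝ} (B : NB K κ l)

section Types

variable {n : ℝ × ℝ × ℝ} {p : ℂ × ℝ} {h : ℝ}

theorem up_of (hn : ∀ q ∈ K, ev n q ≤ ev n p) (hγ : 0 < n.2.2) :
    Up K p (-n.1 / n.2.2) (-n.2.1 / n.2.2) := by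
  intro q hq
  have h1 := hn q hq
  simp only [ev] at h1
  have h2 : n.2.2 * q.2 ≤ n.2.2 * (p.2 + -n.1 / n.2.2 * (q.1.re - p.1.re) +
      -n.2.1 / n.2.2 * (q.1.im - p.1.im)) := by
    have : n.2.2 * (p.2 + -n.1 / n.2.2 * (q.1.re - p.1.re) +
      -n.2.1 / n.2.2 * (q.1.im - p.1.im)) = n.2.2 * p.2 - n.1 * (q.1.re - p.1.re) -
        n.2.1 * (q.1.im - p.1.im) := by
      field_simp
      ring
    rw [this]
    linarith
  exact le_of_mul_le_mul_left h2 hγ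

theorem lo_of (hn : ∀ q ∈ K, ev n q ≤ ev n p) (hγ : n.2.2 < 0) :
    Lo K p (-n.1 / n.2.2) (-n.2.1 / n.2.2) := by
  intro q hq
  have h1 := hn q hq
  simp only [ev] at h1
  have h2 : -n.2.2 * (p.2 + -n.1 / n.2.2 * (q.1.re - p.1.re) +
      -n.2.1 / n.2.2 * (q.1.im - p.1.im)) ≤ -n.2.2 * q.2 := by
    have h3 : n.2.2 ≠ 0 := hγ.ne
    have : -n.2.2 * (p.2 + -n.1 / n.2.2 * (q.1.re - p.1.re) +
      -n.2.1 / n.2.2 * (q.1.im - p.1.im)) = -n.2.2 * p.2 + n.1 * (q.1.re - p.1.re) +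
        n.2.1 * (q.1.im - p.1.im) := by
      field_simp
      ring
    rw [this]
    linarith
  exact le_of_mul_le_mul_left h2 (by linarith)

theorem up1_of (hn : ∀ q ∈ K, ev n q ≤ ev n p) (hγ : 0 < n.2.2)
    (hu : 0 ≤ ev n ((⟨-1, 0⟩ : ℂ), -h)) : Up1 K p h := by
  refine ⟨_, _, ?_, up_of hn hγ⟩
  simp only [ev] at hu
  rw [le_div_iff₀ hγ]
  linarith

theorem up2_of (hn : ∀ q ∈ K, ev n q ≤ ev n p) (hγ : 0 < n.2.2)
    (hu : 0 ≤ ev n ((⟨0, -1⟩ : ℂ), h)) : Up2 K p h := by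
  refine ⟨-n.1 / n.2.2, n.2.1 / n.2.2, ?_, ?_⟩
  · simp only [ev] at hu
    rw [div_le_iff₀ hγ]
    linarith
  · have := up_of hn hγ
    rwa [neg_div n.2.2 n.2.1] at this

theorem lo1_of (hn : ∀ q ∈ K, ev n q ≤ ev n p) (hγ : n.2.2 < 0)
    (hu : 0 ≤ ev n ((⟨-1, 0⟩ : ℂ), -h)) : Lo1 K p h := by
  refine ⟨_, _, ?_, lo_of hn hγ⟩
  simp only [ev] at hu
  rw [div_le_iff_of_neg hγ]
  linarith

theorem lo2_of (hn : ∀ q ∈ K, ev n q ≤ ev n p) (hγ : n.2.2 < 0)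
    (hu : 0 ≤ ev n ((⟨0, -1⟩ : ℂ), h)) : Lo2 K p h := by
  refine ⟨_, _, ?_, lo_of hn hγ⟩
  simp only [ev] at hu
  rw [div_le_iff_of_neg hγ]
  linarith

include B

theorem vert1 (hn0 : n ≠ 0) (hp : p ∈ K) (hn : ∀ q ∈ K, ev n q ≤ ev n p) (hγ : n.2.2 = 0)
    (hu : 0 ≤ ev n ((⟨-1, 0⟩ : ℂ), -h)) (hx : 0 ≤ p.1.re) (hy : 0 ≤ p.1.im)
    (hpb : p ≠ (⟨0, 1⟩, 0)) : 1 < p.1.im := by
  have h0 := ev_lt hn0 hn (B.ax 0 le_rfl zero_le_one)
  have h1 := hn _ B.hb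
  simp only [ev, hγ] at hu h0 h1
  simp only [Complex.zero_re, Complex.zero_im, mul_zero, zero_mul, add_zero, zero_add, mul_one,
    mul_neg] at hu h0 h1
  have h2 : 0 < n.2.1 := by
    by_contra hcon
    push Not at hcon
    have := mul_nonpos_of_nonpos_of_nonneg hcon hy
    have := mul_nonpos_of_nonpos_of_nonneg (show n.1 ≤ 0 by linarith) hx
    linarith
  by_contra hcon
  push Not at hcon
  have h3 := mul_nonpos_of_nonpos_of_nonneg (show n.1 ≤ 0 by linarith) hx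
  have h4 : n.2.1 * p.1.im ≤ n.2.1 * 1 := mul_le_mul_of_nonneg_left hcon h2.le
  have hn' : n = (n.1, n.2.1, 0) := by
    refine Prod.ext rfl (Prod.ext rfl hγ)
  refine hpb ?_
  symm
  refine B.uniq n.1 n.2.1 (Or.inr h2.ne') p hp ?_ _ B.hb ?_
  · rw [← hn']
    exact hn
  · simp only [ev]
    simp only [mul_zero, zero_mul, add_zero, zero_add, mul_one]
    linarith

theorem vert2 (hn0 : n ≠ 0) (hp : p ∈ K) (hn : ∀ q ∈ K, ev n q ≤ ev n p) (hγ : n.2.2 = 0)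
    (hu : 0 ≤ ev n ((⟨0, -1⟩ : ℂ), h)) (hx : 0 ≤ p.1.re) (hy : 0 ≤ p.1.im)
    (hpt : p ≠ (⟨1, 0⟩, 1)) : 1 < p.1.re := by
  have h0 := ev_lt hn0 hn (B.ax 0 le_rfl zero_le_one)
  have h1 := hn _ B.ht
  simp only [ev, hγ] at hu h0 h1
  simp only [Complex.zero_re, Complex.zero_im, mul_zero, zero_mul, add_zero, zero_add, mul_one,
    mul_neg] at hu h0 h1
  have h2 : 0 < n.1 := by
    by_contra hcon
    push Not at hcon
    have := mul_nonpos_of_nonpos_of_nonneg hcon hx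
    have := mul_nonpos_of_nonpos_of_nonneg (show n.2.1 ≤ 0 by linarith) hy
    linarith
  by_contra hcon
  push Not at hcon
  have h3 := mul_nonpos_of_nonpos_of_nonneg (show n.2.1 ≤ 0 by linarith) hy
  have h4 : n.1 * p.1.re ≤ n.1 * 1 := mul_le_mul_of_nonneg_left hcon h2.le
  have hn' : n = (n.1, n.2.1, 0) := by
    refine Prod.ext rfl (Prod.ext rfl hγ)
  refine hpt ?_
  symm
  refine B.uniq n.1 n.2.1 (Or.inl h2.ne') p hp ?_ _ B.ht ?_
  · rw [← hn']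
    exact hn
  · simp only [ev]
    simp only [mul_zero, zero_mul, add_zero, zero_add, mul_one]
    linarith

/-- the three types at a point which is not illuminated by the first direction -/
theorem type1 (hn0 : n ≠ 0) (hp : p ∈ K) (hn : ∀ q ∈ K, ev n q ≤ ev n p)
    (hu : 0 ≤ ev n ((⟨-1, 0⟩ : ℂ), -h)) (hx : 0 ≤ p.1.re) (hy : 0 ≤ p.1.im)
    (hpb : p ≠ (⟨0, 1⟩, 0)) : Up1 K p h ∨ Lo1 K p h ∨ 1 < p.1.im := by
  rcases lt_trichotomy n.2.2 0 with h1 | h1 | h1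
  · exact Or.inr (Or.inl (lo1_of hn h1 hu))
  · exact Or.inr (Or.inr (B.vert1 hn0 hp hn h1 hu hx hy hpb))
  · exact Or.inl (up1_of hn h1 hu)

theorem type2 (hn0 : n ≠ 0) (hp : p ∈ K) (hn : ∀ q ∈ K, ev n q ≤ ev n p)
    (hu : 0 ≤ ev n ((⟨0, -1⟩ : ℂ), h)) (hx : 0 ≤ p.1.re) (hy : 0 ≤ p.1.im)
    (hpt : p ≠ (⟨1, 0⟩, 1)) : Up2 K p h ∨ Lo2 K p h ∨ 1 < p.1.re := by
  rcases lt_trichotomy n.2.2 0 with h1 | h1 | h1
  · exact Or.inr (Or.inl (lo2_of hn h1 hu))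
  · exact Or.inr (Or.inr (B.vert2 hn0 hp hn h1 hu hx hy hpt))
  · exact Or.inl (up2_of hn h1 hu)

end Types

include B

theorem posY {p : ℂ × ℝ} (hp : p ∈ Sil K) (hx : 0 ≤ p.1.re) (hy : 0 ≤ p.1.im)
    (hpt : p ≠ (⟨1, 0⟩, 1)) : 0 < p.1.im := by
  by_contra hcon
  push Not at hcon
  have hy0 : p.1.im = 0 := le_antisymm hcon hy
  rcases lt_or_ge p.1.re 1 with h1 | h1
  · apply hp.2 1
    have := B.conv.combo_self_interior_mem_interior B.ht (B.ax 1 zero_le_one le_rfl) hx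
      (show 0 < 1 - p.1.re by linarith) (by ring)
    convert this using 1
    refine Prod.ext ?_ ?_
    · apply Complex.ext
      · simp
      · simp [hy0]
    · simp
  · apply hpt
    apply B.eq_t hp.1
    have := B.kt _ hp.1
    rw [hy0] at this ⊢
    linarith

theorem posX {p : ℂ × ℝ} (hp : p ∈ Sil K) (hx : 0 ≤ p.1.re) (hy : 0 ≤ p.1.im)
    (hpb : p ≠ (⟨0, 1⟩, 0)) : 0 < p.1.re := by
  by_contra hcon
  push Not at hcon
  have hx0 : p.1.re = 0 := le_antisymm hcon hx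
  rcases lt_or_ge p.1.im 1 with h1 | h1
  · apply hp.2 0
    have := B.conv.combo_self_interior_mem_interior B.hb (B.ax 0 le_rfl zero_le_one) hy
      (show 0 < 1 - p.1.im by linarith) (by ring)
    convert this using 1
    refine Prod.ext ?_ ?_
    · apply Complex.ext
      · simp [hx0]
      · simp
    · simp
  · apply hpb
    apply B.eq_b hp.1
    have := B.kb _ hp.1
    rw [hx0] at this ⊢
    linarith

theorem pos {p : ℂ × ℝ} (hp : p ∈ Sil K) (hx : 0 ≤ p.1.re) (hy : 0 ≤ p.1.im)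
    (hpt : p ≠ (⟨1, 0⟩, 1)) (hpb : p ≠ (⟨0, 1⟩, 0)) : Pos p := by
  have h1 := B.posX hp hx hy hpb
  have h2 := B.posY hp hx hy hpt
  have h3 := B.kt _ hp.1
  have h4 := B.kb _ hp.1
  have h5 := mul_pos (show 0 < κ + 1 by linarith [B.κ_gt]) h2
  have h6 := mul_pos (show 0 < l + 1 by linarith [B.l_gt]) h1
  exact
  { x := h1
    y := h2
    xy := by linarith
    yx := by linarith
    z0 := (B.sil _ hp).1
    z1 := (B.sil _ hp).2 }

/-- the third direction illuminates the open arc -/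
theorem mid {p : ℂ × ℝ} (hp : p ∈ K) (P : Pos p) : Ill K ((⟨-1, -1⟩ : ℂ), 0) p := by
  by_contra hcon
  obtain ⟨n, hn0, hn, hu⟩ := exists_normal B.conv B.hint hp hcon
  simp only [ev] at hu
  have hax : n.2.2 * p.2 < ev n p := by
    have := ev_lt hn0 hn (B.ax p.2 P.z0 P.z1)
    simpa [ev] using this
  have e1 := hn _ B.ht
  have e2 := hn _ B.ht'
  have e3 := hn _ B.hb
  have e4 := hn _ B.hb'
  simp only [ev] at hax e1 e2 e3 e4
  have x0 := P.x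
  have y0 := P.y
  have xy := P.xy
  have yx := P.yx
  have z0 := P.z0
  have z1 := P.z1
  rcases le_or_gt n.2.1 0 with h2 | h2
  · rcases le_or_gt n.1 0 with h1 | h1
    · have := mul_nonpos_of_nonpos_of_nonneg h1 x0.le
      have := mul_nonpos_of_nonpos_of_nonneg h2 y0.le
      linarith
    · -- `n1 > 0`, `n2 ≤ -n1`
      have f1 : n.2.1 * p.1.im ≤ -n.1 * p.1.im :=
        mul_le_mul_of_nonneg_right (by linarith) y0.le
      have f2 : n.1 * (p.1.re - p.1.im) < n.1 * 1 := mul_lt_mul_of_pos_left (by linarith) h1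
      rcases le_or_gt 0 n.2.2 with h3 | h3
      · have f3 : n.2.2 * p.2 ≤ n.2.2 * 1 := mul_le_mul_of_nonneg_left z1 h3
        linarith
      · have f3 : n.2.2 * p.2 ≤ 0 := mul_nonpos_of_nonpos_of_nonneg h3.le z0
        linarith
  · have f1 : n.1 * p.1.re ≤ -n.2.1 * p.1.re :=
        mul_le_mul_of_nonneg_right (by linarith) x0.le
    have f2 : n.2.1 * (p.1.im - p.1.re) < n.2.1 * 1 := mul_lt_mul_of_pos_left (by linarith) h2
    rcases le_or_gt 0 n.2.2 with h3 | h3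
    · have f3 : n.2.2 * p.2 ≤ n.2.2 * 1 := mul_le_mul_of_nonneg_left z1 h3
      linarith
    · have f3 : n.2.2 * p.2 ≤ 0 := mul_nonpos_of_nonpos_of_nonneg h3.le z0
      linarith

theorem S1 {p : ℂ × ℝ} {h : ℝ} (P : Pos p) (hY : p.1.im ≤ 1) (H : Lo1 K p h) :
    p.2 ≤ h * p.1.re := by
  obtain ⟨a, c, ha, hL⟩ := H
  exact s1 P.x.le P.y.le hY (hL _ B.hb) (hL _ B.hb') ha

theorem S2 {p : ℂ × ℝ} {h : ℝ} (P : Pos p) (hX : p.1.re ≤ 1) (H : Up2 K p h) :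
    1 - p.2 ≤ h * p.1.im := by
  obtain ⟨n, β, hb, hL⟩ := H
  have e1 := hL _ B.ht
  have e2 := hL _ B.ht'
  simp only at e1 e2
  exact s2 (n := n) P.x.le P.y.le hX (by linarith) (by linarith) hb

theorem S3 {p : ℂ × ℝ} {h : ℝ} (P : Pos p) (hY : p.1.im ≤ 1) (H : Up1 K p h) :
    h * (1 + p.1.re - p.1.im) ≤ p.2 + p.1.im - 1 := by
  obtain ⟨α, m, ha, hL⟩ := H
  exact s3 P.y.le hY P.xy.le (hL _ B.ht') (hL _ B.hb) ha

theorem S4 {p : ℂ × ℝ} {h : ℝ} (P : Pos p) (hX : p.1.re ≤ 1) (H : Lo2 K p h) :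
    h * (1 + p.1.im - p.1.re) ≤ p.1.re - p.2 := by
  obtain ⟨a, c, hc, hL⟩ := H
  exact s4 P.x.le hX P.yx.le (hL _ B.hb') (hL _ B.ht) hc

end NB

end Pool.Agent.Helper66.HT
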